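import Mathlib

set_option autoImplicit false

/-!
The second moment of a sum of sawtooth functions on `ZMod N`, and the second moment of a bounded
function.
-/

namespace Pool.Agent.TH571.PCV

open Finset

variable {N : ℕ} [NeZero N]

lemma val_sub_cases (x y : ZMod N) : ((x.val : ℤ) - y.val = (x - y).val) ∨
    ((x.val : ℤ) - y.val = (x - y).val - N) := by
  have h1 : x.val = (y.val + (x - y).val) % N := by
    rw [← ZMod.val_add]; congr 1; ring
  have h2 := ZMod.val_lt y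
  have h3 := ZMod.val_lt (x - y)
  by_cases h : y.val + (x - y).val < N
  · left
    rw [Nat.mod_eq_of_lt h] at h1
    omega
  · right
    rw [Nat.mod_eq_sub_mod (by omega), Nat.mod_eq_of_lt (by omega)] at h1
    omega

lemma sum_val_sub (c : ZMod N) : ∑ x : ZMod N, ((c - x).val : ℤ) = ∑ x : ZMod N, (x.val : ℤ) :=
  Equiv.sum_comp (Equiv.subLeft c) (fun x : ZMod N => (x.val : ℤ))

lemma sum_val_sub_sq (c : ZMod N) :
    ∑ x : ZMod N, ((c - x).val : ℤ) ^ 2 = ∑ x : ZMod N, (x.val : ℤ) ^ 2 :=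
  Equiv.sum_comp (Equiv.subLeft c) (fun x : ZMod N => (x.val : ℤ) ^ 2)

lemma sum_diff_sq (c c' : ZMod N) :
    ∑ x : ZMod N, (((c - x).val : ℤ) - (c' - x).val) ^ 2 =
      N * (((c - c').val : ℤ) * (N - (c - c').val)) := by
  set δ : ℤ := ((c - c').val : ℤ) with hδ
  have h1 : ∀ x : ZMod N, (((c - x).val : ℤ) - (c' - x).val) ^ 2 =
      (2 * δ - N) * (((c - x).val : ℤ) - (c' - x).val) + δ * (N - δ) := by
    intro x
    have h2 : (c - x) - (c' - x) = c - c' := by ring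
    rcases val_sub_cases (c - x) (c' - x) with h | h <;> rw [h2, ← hδ] at h <;> rw [h] <;> ring
  rw [Finset.sum_congr rfl fun x _ => h1 x, Finset.sum_add_distrib, ← Finset.mul_sum,
    Finset.sum_sub_distrib, sum_val_sub, sum_val_sub, sub_self, mul_zero, zero_add,
    Finset.sum_const, Finset.card_univ, ZMod.card, nsmul_eq_mul]

/-- The second moment of a sum of sawtooth functions with weights of sum zero. -/
lemma second_moment {ι : Type*} (s : Finset ι) (ε : ι → ℤ) (hε : ∑ i ∈ s, ε i = 0)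
    (c : ι → ZMod N) :
    2 * ∑ x : ZMod N, (∑ i ∈ s, ε i * ((c i - x).val : ℤ)) ^ 2 =
      -(N * ∑ i ∈ s, ∑ j ∈ s, ε i * ε j * (((c i - c j).val : ℤ) * (N - (c i - c j).val))) := by
  have h1 : ∀ x : ZMod N, 2 * (∑ i ∈ s, ε i * ((c i - x).val : ℤ)) ^ 2 =
      ∑ i ∈ s, ∑ j ∈ s, ε i * ε j * (((c i - x).val : ℤ) ^ 2 + ((c j - x).val : ℤ) ^ 2 -
        (((c i - x).val : ℤ) - (c j - x).val) ^ 2) := by
    intro x
    rw [sq, Finset.sum_mul_sum, Finset.mul_sum]
    refine Finset.sum_congr rfl fun i _ => ?_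
    rw [Finset.mul_sum]
    refine Finset.sum_congr rfl fun j _ => ?_
    ring
  rw [Finset.mul_sum, Finset.sum_congr rfl fun x _ => h1 x, Finset.sum_comm]
  have h2 : ∀ i ∈ s, ∑ x : ZMod N, ∑ j ∈ s, ε i * ε j * (((c i - x).val : ℤ) ^ 2 +
      ((c j - x).val : ℤ) ^ 2 - (((c i - x).val : ℤ) - (c j - x).val) ^ 2) =
      ∑ j ∈ s, (ε i * ε j * (2 * ∑ x : ZMod N, (x.val : ℤ) ^ 2) -
        N * (ε i * ε j * (((c i - c j).val : ℤ) * (N - (c i - c j).val)))) := by
    intro i _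
    rw [Finset.sum_comm]
    refine Finset.sum_congr rfl fun j _ => ?_
    rw [← Finset.mul_sum, Finset.sum_sub_distrib, Finset.sum_add_distrib, sum_val_sub_sq,
      sum_val_sub_sq, sum_diff_sq]
    ring
  rw [Finset.sum_congr rfl h2]
  simp only [Finset.sum_sub_distrib, ← Finset.sum_mul, ← Finset.mul_sum]
  rw [hε]
  ring

/-- A function with values in `[0, M]` has a small variance. -/
theorem moment_bound {ι : Type*} (s : Finset ι) (ε : ι → ℤ) (hε : ∑ i ∈ s, ε i = 0)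
    (c : ι → ZMod N) (C M : ℤ) (h0 : ∀ x : ZMod N, 0 ≤ C + ∑ i ∈ s, ε i * ((c i - x).val : ℤ))
    (hM : ∀ x : ZMod N, C + ∑ i ∈ s, ε i * ((c i - x).val : ℤ) ≤ M) :
    -(2 * ∑ i ∈ s, ∑ j ∈ s, ε i * ε j * (((c i - c j).val : ℤ) * (N - (c i - c j).val))) ≤
      M ^ 2 := by
  have hN : (0 : ℤ) < N := by exact_mod_cast Nat.pos_of_ne_zero (NeZero.ne N)
  set h : ZMod N → ℤ := fun x => ∑ i ∈ s, ε i * ((c i - x).val : ℤ) with hh
  have hsum : ∑ x : ZMod N, h x = 0 := by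
    rw [hh]
    simp only
    rw [Finset.sum_comm]
    simp only [← Finset.mul_sum, sum_val_sub]
    rw [← Finset.sum_mul, hε, zero_mul]
  have h1 : ∑ x : ZMod N, (C + h x) * (M - (C + h x)) ≥ 0 :=
    Finset.sum_nonneg fun x _ => mul_nonneg (h0 x) (by linarith [hM x])
  have h2 : ∑ x : ZMod N, (C + h x) * (M - (C + h x)) =
      N * (C * (M - C)) - ∑ x : ZMod N, h x ^ 2 := by
    have h3 : ∀ x : ZMod N, (C + h x) * (M - (C + h x)) =
        C * (M - C) + (M - 2 * C) * h x - h x ^ 2 := fun x => by ring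
    rw [Finset.sum_congr rfl fun x _ => h3 x, Finset.sum_sub_distrib, Finset.sum_add_distrib,
      ← Finset.mul_sum (f := h), hsum, mul_zero, add_zero, Finset.sum_const, Finset.card_univ,
      ZMod.card, nsmul_eq_mul]
  have h4 := second_moment s ε hε c
  have h5 : ∑ x : ZMod N, h x ^ 2 = ∑ x : ZMod N, (∑ i ∈ s, ε i * ((c i - x).val : ℤ)) ^ 2 := rfl
  rw [← h5] at h4
  set S := ∑ i ∈ s, ∑ j ∈ s, ε i * ε j * (((c i - c j).val : ℤ) * (N - (c i - c j).val)) with hS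
  have h6 : ∑ x : ZMod N, h x ^ 2 ≤ N * (C * (M - C)) := by linarith
  have h7 : 4 * (C * (M - C)) ≤ M ^ 2 := by nlinarith [sq_nonneg (M - 2 * C)]
  have h8 : (N : ℤ) * (-(2 * S)) ≤ N * M ^ 2 := by
    have : (N : ℤ) * (4 * (C * (M - C))) ≤ N * M ^ 2 := mul_le_mul_of_nonneg_left h7 hN.le
    linarith
  exact le_of_mul_le_mul_left h8 hN

end Pool.Agent.TH571.PCV
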