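import Pool.Agent.TH571.PCV.UnitsSum
import Pool.Agent.TH571.PCV.Avg

set_option autoImplicit false

/-!
The average over the units modulo `N` of the second moments.
-/

namespace Pool.Agent.TH571.PCV

open Finset

section

variable (N : ℕ) [NeZero N] {ι : Type*} (s : Finset ι) (ε : ι → ℤ) (z : ι → ℤ)

/-- Up to a factor, the variance of the sum of sawtooth functions for the unit `u`. -/
def mom (u : (ZMod N)ˣ) : ℤ :=
  -(2 * ∑ i ∈ s, ∑ j ∈ s, ε i * ε j *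
      ((((u : ZMod N) * ((z i - z j : ℤ) : ZMod N)).val : ℤ) *
        (N - ((u : ZMod N) * ((z i - z j : ℤ) : ZMod N)).val)))

lemma mom_le (hε : ∑ i ∈ s, ε i = 0) (u : (ZMod N)ˣ) (a : ℤ) (ha : ((a : ℤ) : ZMod N) = u)
    (C M : ℤ) (h : ∀ x : ℤ, 0 ≤ C + ∑ i ∈ s, ε i * ((a * z i - x) % (N : ℤ)) ∧
      C + ∑ i ∈ s, ε i * ((a * z i - x) % (N : ℤ)) ≤ M) : mom N s ε z u ≤ M ^ 2 := by
  have h2 : ∀ (x : ZMod N) (i : ι), (((u : ZMod N) * ((z i : ℤ) : ZMod N) - x).val : ℤ) =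
      (a * z i - (x.val : ℤ)) % (N : ℤ) := by
    intro x i
    rw [← ZMod.val_intCast]
    congr 2
    push_cast
    rw [ha, ZMod.natCast_zmod_val]
  have h3 := moment_bound s ε hε (fun i => (u : ZMod N) * ((z i : ℤ) : ZMod N)) C M
    (fun x => by simp only [h2]; exact (h x.val).1)
    (fun x => by simp only [h2]; exact (h x.val).2)
  have h4 : ∀ i j, (u : ZMod N) * ((z i : ℤ) : ZMod N) - (u : ZMod N) * ((z j : ℤ) : ZMod N) =
      (u : ZMod N) * ((z i - z j : ℤ) : ZMod N) := by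
    intro i j; push_cast; ring
  simp only [h4] at h3
  exact h3

lemma mom_sum (hε : ∑ i ∈ s, ε i = 0) :
    3 * ((∑ u : (ZMod N)ˣ, mom N s ε z u : ℤ) : ℚ) = (N.totient : ℚ) * (N : ℚ) ^ 2 *
        ∑ i ∈ s, ∑ j ∈ s, (ε i : ℚ) * ε j * gam (((z i - z j : ℤ) : ℚ) / N) := by
  have hN : 0 < N := Nat.pos_of_ne_zero (NeZero.ne N)
  have hNq : (0 : ℚ) < N := by exact_mod_cast hN
  have h6 : ∀ i j, 6 * ((∑ u : (ZMod N)ˣ, ((((u : ZMod N) * ((z i - z j : ℤ) : ZMod N)).val : ℤ) *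
        (N - ((u : ZMod N) * ((z i - z j : ℤ) : ZMod N)).val)) : ℤ) : ℚ) =
      (N.totient : ℚ) * (N : ℚ) ^ 2 * (1 - gam (((z i - z j : ℤ) : ℚ) / N)) := by
    intro i j
    rw [unit_sum]
    congr 2
    have h7 : ((((z i - z j : ℤ) : ZMod N).val : ℤ)) = (z i - z j) % (N : ℤ) := ZMod.val_intCast _
    have h8 : (((z i - z j : ℤ) : ZMod N).val : ℚ) = ((z i - z j : ℤ) : ℚ) -
        N * (((z i - z j) / (N : ℤ) : ℤ) : ℚ) := by
      have h9 := Int.mul_ediv_add_emod (z i - z j) N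
      rw [← h7] at h9
      have h10 := congrArg (fun x : ℤ => (x : ℚ)) h9
      push_cast at h10 ⊢
      linarith
    have h11 : (((z i - z j : ℤ) : ZMod N).val : ℚ) / N =
        ((z i - z j : ℤ) : ℚ) / N + ((-((z i - z j) / (N : ℤ)) : ℤ) : ℚ) := by
      rw [h8]
      push_cast
      field_simp
      ring
    rw [h11, gam_add_int]
  have h12 : ∑ u : (ZMod N)ˣ, mom N s ε z u =
      -(2 * ∑ i ∈ s, ∑ j ∈ s, ε i * ε j * ∑ u : (ZMod N)ˣ,
      ((((u : ZMod N) * ((z i - z j : ℤ) : ZMod N)).val : ℤ) *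
        (N - ((u : ZMod N) * ((z i - z j : ℤ) : ZMod N)).val))) := by
    unfold mom
    rw [Finset.sum_neg_distrib, ← Finset.mul_sum, Finset.sum_comm]
    congr 2
    refine Finset.sum_congr rfl fun i _ => ?_
    rw [Finset.sum_comm]
    refine Finset.sum_congr rfl fun j _ => ?_
    rw [Finset.mul_sum]
  rw [h12]
  have h13 : ((∑ i ∈ s, ∑ j ∈ s, ε i * ε j * ∑ u : (ZMod N)ˣ,
      ((((u : ZMod N) * ((z i - z j : ℤ) : ZMod N)).val : ℤ) *
        (N - ((u : ZMod N) * ((z i - z j : ℤ) : ZMod N)).val)) : ℤ) : ℚ) * 6 =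
      -((N.totient : ℚ) * (N : ℚ) ^ 2 *
        ∑ i ∈ s, ∑ j ∈ s, (ε i : ℚ) * ε j * gam (((z i - z j : ℤ) : ℚ) / N)) := by
    rw [Int.cast_sum, Finset.sum_mul]
    have h14 : ∀ i ∈ s, ((∑ j ∈ s, ε i * ε j * ∑ u : (ZMod N)ˣ,
      ((((u : ZMod N) * ((z i - z j : ℤ) : ZMod N)).val : ℤ) *
        (N - ((u : ZMod N) * ((z i - z j : ℤ) : ZMod N)).val)) : ℤ) : ℚ) * 6 =
        ∑ j ∈ s, ((N.totient : ℚ) * (N : ℚ) ^ 2 * (ε i : ℚ) * (ε j : ℚ) -
          (N.totient : ℚ) * (N : ℚ) ^ 2 *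
            ((ε i : ℚ) * ε j * gam (((z i - z j : ℤ) : ℚ) / N))) := by
      intro i _
      rw [Int.cast_sum, Finset.sum_mul]
      refine Finset.sum_congr rfl fun j _ => ?_
      have h15 := h6 i j
      rw [Int.cast_mul, Int.cast_mul]
      linear_combination ((ε i : ℚ) * ε j) * h15
    rw [Finset.sum_congr rfl h14]
    have hεq : ∑ i ∈ s, (ε i : ℚ) = 0 := by
      have := congrArg (fun x : ℤ => (x : ℚ)) hε
      push_cast at this
      exact this
    simp only [Finset.sum_sub_distrib, ← Finset.mul_sum]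
    rw [hεq]
    simp
  rw [Int.cast_neg, Int.cast_mul]
  generalize (∑ i ∈ s, ∑ j ∈ s, ε i * ε j * ∑ u : (ZMod N)ˣ,
      ((((u : ZMod N) * ((z i - z j : ℤ) : ZMod N)).val : ℤ) *
        (N - ((u : ZMod N) * ((z i - z j : ℤ) : ZMod N)).val)) : ℤ) = S at h13 ⊢
  have h17 : ((2 : ℤ) : ℚ) = 2 := by norm_num
  rw [h17]
  linarith

end

/-- The trivial bound for the moment of `r` positive and `r` negative sawtooth functions. -/
lemma mom_le_trivial (N : ℕ) [NeZero N] (r : ℕ) (z : Fin r ⊕ Fin r → ℤ) (u : (ZMod N)ˣ) :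
    mom N Finset.univ (Sum.elim (fun _ => 1) (fun _ => -1) : Fin r ⊕ Fin r → ℤ) z u ≤
      ((r : ℤ) * N) ^ 2 := by
  set ε : Fin r ⊕ Fin r → ℤ := Sum.elim (fun _ => 1) (fun _ => -1) with hε
  have hN : (0 : ℤ) < N := by exact_mod_cast Nat.pos_of_ne_zero (NeZero.ne N)
  have hε0 : ∑ i : Fin r ⊕ Fin r, ε i = 0 := by
    simp [hε, Fintype.sum_sum_type]
  set c : Fin r ⊕ Fin r → ZMod N := fun i => (u : ZMod N) * ((z i : ℤ) : ZMod N) with hc
  have h1 := second_moment Finset.univ ε hε0 c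
  have h4 : ∀ i j, c i - c j = (u : ZMod N) * ((z i - z j : ℤ) : ZMod N) := by
    intro i j; simp only [hc]; push_cast; ring
  simp only [h4] at h1
  have h5 : (N : ℤ) * mom N Finset.univ ε z u =
      4 * ∑ x : ZMod N, (∑ i : Fin r ⊕ Fin r, ε i * ((c i - x).val : ℤ)) ^ 2 := by
    unfold mom
    linarith
  have h6 : ∀ x : ZMod N, ∑ i : Fin r ⊕ Fin r, ε i * ((c i - x).val : ℤ) =
      ∑ l : Fin r, (((c (Sum.inl l) - x).val : ℤ) - (c (Sum.inr l) - x).val) := by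
    intro x
    rw [Fintype.sum_sum_type, Finset.sum_sub_distrib]
    simp only [hε, Sum.elim_inl, Sum.elim_inr, one_mul, neg_one_mul, Finset.sum_neg_distrib]
    ring
  have h7 : ∑ x : ZMod N, (∑ i : Fin r ⊕ Fin r, ε i * ((c i - x).val : ℤ)) ^ 2 ≤
      r * ∑ l : Fin r, (N * (((c (Sum.inl l) - c (Sum.inr l)).val : ℤ) *
        (N - (c (Sum.inl l) - c (Sum.inr l)).val))) := by
    have h8 : ∀ l : Fin r, (N : ℤ) * (((c (Sum.inl l) - c (Sum.inr l)).val : ℤ) *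
        (N - (c (Sum.inl l) - c (Sum.inr l)).val)) =
        ∑ x : ZMod N, (((c (Sum.inl l) - x).val : ℤ) - (c (Sum.inr l) - x).val) ^ 2 := fun l =>
      (sum_diff_sq _ _).symm
    rw [Finset.sum_congr rfl fun l _ => h8 l, Finset.sum_comm, Finset.mul_sum]
    refine Finset.sum_le_sum fun x _ => ?_
    rw [h6 x]
    have h9 := sq_sum_le_card_mul_sum_sq (s := (Finset.univ : Finset (Fin r)))
      (f := fun l => (((c (Sum.inl l) - x).val : ℤ) - (c (Sum.inr l) - x).val))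
    simpa using h9
  have h10 : ∀ l : Fin r, 4 * ((N : ℤ) * (((c (Sum.inl l) - c (Sum.inr l)).val : ℤ) *
        (N - (c (Sum.inl l) - c (Sum.inr l)).val))) ≤ N * N ^ 2 := by
    intro l
    have h11 : 4 * ((((c (Sum.inl l) - c (Sum.inr l)).val : ℤ) *
        (N - (c (Sum.inl l) - c (Sum.inr l)).val))) ≤ (N : ℤ) ^ 2 := by
      nlinarith [sq_nonneg ((N : ℤ) - 2 * ((c (Sum.inl l) - c (Sum.inr l)).val : ℤ))]
    nlinarith
  have h12 : 4 * ∑ l : Fin r, (N * (((c (Sum.inl l) - c (Sum.inr l)).val : ℤ) *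
        (N - (c (Sum.inl l) - c (Sum.inr l)).val))) ≤ r * (N * (N : ℤ) ^ 2) := by
    rw [Finset.mul_sum]
    have := Finset.sum_le_sum fun (l : Fin r) (_ : l ∈ Finset.univ) => h10 l
    rw [Finset.sum_const, Finset.card_univ, Fintype.card_fin, nsmul_eq_mul] at this
    exact this
  have h13 : (N : ℤ) * mom N Finset.univ ε z u ≤ N * ((r : ℤ) * N) ^ 2 := by
    rw [h5]
    have h14 : (r : ℤ) * (4 * ∑ l : Fin r, (N * (((c (Sum.inl l) - c (Sum.inr l)).val : ℤ) *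
        (N - (c (Sum.inl l) - c (Sum.inr l)).val)))) ≤ r * (r * (N * (N : ℤ) ^ 2)) :=
      mul_le_mul_of_nonneg_left h12 (by positivity)
    nlinarith
  exact le_of_mul_le_mul_left h13 hN

end Pool.Agent.TH571.PCV
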