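import Pool.Agent.TH571.PCV.Weyl
import Pool.Agent.TH571.PCV.UnitsAvg

set_option autoImplicit false
set_option maxHeartbeats 4000000

/-!
Systems all of whose local exponents outside two points are, up to few exceptions, congruent to one
value at each point.
-/

namespace Pool.Agent.TH571.PCV

open Finset Pool.Agent.W432.PC Pool.Agent.W280.PC

universe u

lemma neg_sub_one_emod {N : ℤ} (hN : 0 < N) (y : ℤ) : (-y - 1) % N = N - 1 - y % N := by
  have h1 := Int.emod_nonneg y hN.ne'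
  have h2 := Int.emod_lt_of_pos y hN
  have h3 := Int.mul_ediv_add_emod y N
  have h4 : -y - 1 = (N - 1 - y % N) + N * (-(y / N) - 1) := by linarith
  rw [h4, Int.add_mul_emod_self_left]
  exact Int.emod_eq_of_lt (by omega) (by omega)

lemma sub_one_emod {N : ℤ} (hN : 0 < N) (y : ℤ) :
    (y - 1) % N = y % N + (N - 1) - N * (if N ∣ y then 0 else 1) := by
  have h1 := Int.emod_nonneg y hN.ne'
  have h2 := Int.emod_lt_of_pos y hN
  have h3 := Int.mul_ediv_add_emod y N
  by_cases h : N ∣ y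
  · rw [if_pos h]
    have h0 : y % N = 0 := Int.emod_eq_zero_of_dvd h
    have h4 : y - 1 = (N - 1) + N * (y / N - 1) := by linarith
    rw [h4, Int.add_mul_emod_self_left, h0, Int.emod_eq_of_lt (by omega) (by omega)]
    ring
  · rw [if_neg h]
    have h0 : y % N ≠ 0 := fun h5 => h (Int.dvd_of_emod_eq_zero h5)
    have h4 : y - 1 = (y % N - 1) + N * (y / N) := by linarith
    rw [h4, Int.add_mul_emod_self_left, Int.emod_eq_of_lt (by omega) (by omega)]
    ring

section

variable {R : Type u} [CommRing R] [IsDomain R] [CharZero R] {n r : ℕ}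

/-- The first inequality, in symmetric form: the points are the elements of `Fin (n + 1)`, the last
one is infinity. -/
theorem sym_lower (α : Fin n → R) (hα : ∀ i j, i ≠ j → IsUnit (α i - α j))
    (A : Fin n → Matrix (Fin r) (Fin r) R) (lam : Fin (n + 1) → Fin r → ℚ)
    (hlam : ∀ j : Fin n, HasExponents (A j) (lam j.castSucc))
    (hinf : HasExponents (∑ j, A j) (fun l => -lam (Fin.last n) l))
    (N : ℕ) (hN : 0 < N) (e : Fin (n + 1) → Fin r → ℤ)
    (he : ∀ i l, (N : ℚ) * lam i l = e i l) (a : ℤ)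
    (hno : ¬ ∃ P₀ : ℕ, ∀ p : ℕ, p.Prime → P₀ < p → (N : ℤ) ∣ a * p + 1 →
      ∀ (𝔪 : Ideal R) [𝔪.IsMaximal], (p : R) ∈ 𝔪 → ¬ PCurvZeroAt α A 𝔪)
    (x : Fin (n + 1) → ℤ) (hx : ∑ i, x i = 1) :
    (r : ℤ) * (N - 1) ≤ ∑ i, ∑ l, (a * e i l - x i) % (N : ℤ) := by
  have hN' : (0 : ℤ) < N := by exact_mod_cast hN
  have h1 := pos_of_not α hα A A (Or.inl rfl) (fun j => lam j.castSucc)
    (fun l => -lam (Fin.last n) l) hlam hinf N hN (fun j => e j.castSucc)
    (fun l => -e (Fin.last n) l) (fun j l => he _ _)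
    (fun l => by rw [mul_neg, he]; push_cast; ring) a hno (fun j => x j.castSucc)
  rw [Fin.sum_univ_castSucc] at hx ⊢
  have h2 : ∀ l, (a * -e (Fin.last n) l - ∑ j : Fin n, x j.castSucc) % (N : ℤ) =
      (N - 1) - (a * e (Fin.last n) l - x (Fin.last n)) % (N : ℤ) := by
    intro l
    rw [← neg_sub_one_emod hN']
    congr 1
    linarith
  rw [Finset.sum_congr rfl fun l _ => h2 l, Finset.sum_sub_distrib, Finset.sum_const,
    Finset.card_univ, Fintype.card_fin, nsmul_eq_mul] at h1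
  linarith

/-- The dual inequality. -/
theorem sym_upper (α : Fin n → R) (hα : ∀ i j, i ≠ j → IsUnit (α i - α j))
    (A : Fin n → Matrix (Fin r) (Fin r) R) (lam : Fin (n + 1) → Fin r → ℚ)
    (hlam : ∀ j : Fin n, HasExponents (A j) (lam j.castSucc))
    (hinf : HasExponents (∑ j, A j) (fun l => -lam (Fin.last n) l))
    (N : ℕ) (hN : 0 < N) (e : Fin (n + 1) → Fin r → ℤ)
    (he : ∀ i l, (N : ℚ) * lam i l = e i l) (a : ℤ)
    (hno : ¬ ∃ P₀ : ℕ, ∀ p : ℕ, p.Prime → P₀ < p → (N : ℤ) ∣ a * p + 1 →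
      ∀ (𝔪 : Ideal R) [𝔪.IsMaximal], (p : R) ∈ 𝔪 → ¬ PCurvZeroAt α A 𝔪)
    (x : Fin (n + 1) → ℤ) (hx : ∑ i, x i = n) :
    ∑ i, ∑ l, (a * e i l - x i) % (N : ℤ) ≤ (n : ℤ) * (r * (N - 1)) := by
  have hN' : (0 : ℤ) < N := by exact_mod_cast hN
  have hsum : HasExponents (∑ j, (fun j => -(A j).transpose) j) (fun l => lam (Fin.last n) l) := by
    have h3 := hasExponents_dual hinf
    have h4 : (∑ j, (fun j => -(A j).transpose) j) = -(∑ j, A j).transpose := by
      rw [Matrix.transpose_sum, ← Finset.sum_neg_distrib]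
    rw [h4]
    simpa using h3
  have h1 := pos_of_not α hα A (fun j => -(A j).transpose) (Or.inr rfl)
    (fun j l => -lam j.castSucc l)
    (fun l => lam (Fin.last n) l) (fun j => hasExponents_dual (hlam j)) hsum N hN
    (fun j l => -e j.castSucc l)
    (fun l => e (Fin.last n) l) (fun j l => by rw [mul_neg, he]; push_cast; ring)
    (fun l => he _ _) a hno (fun j => 1 - x j.castSucc)
  rw [Fin.sum_univ_castSucc] at hx ⊢
  have h2 : ∀ (j : Fin n) (l : Fin r), (a * -e j.castSucc l - (1 - x j.castSucc)) % (N : ℤ) =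
      (N - 1) - (a * e j.castSucc l - x j.castSucc) % (N : ℤ) := by
    intro j l
    rw [← neg_sub_one_emod hN']
    congr 1
    ring
  have h3 : ∑ j : Fin n, (1 - x j.castSucc) = x (Fin.last n) := by
    rw [Finset.sum_sub_distrib, Finset.sum_const, Finset.card_univ, Fintype.card_fin,
      nsmul_eq_mul]
    linarith
  rw [h3] at h1
  simp only [h2, Finset.sum_sub_distrib, Finset.sum_const, Finset.card_univ, Fintype.card_fin,
    nsmul_eq_mul] at h1
  linarith

/-- The bounds for the function attached to two points; at the other points `i` all but `m i` of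
the exponents are congruent to `g i`. -/
theorem block_bounds (α : Fin n → R) (hα : ∀ i j, i ≠ j → IsUnit (α i - α j))
    (A : Fin n → Matrix (Fin r) (Fin r) R) (lam : Fin (n + 1) → Fin r → ℚ)
    (hlam : ∀ j : Fin n, HasExponents (A j) (lam j.castSucc))
    (hinf : HasExponents (∑ j, A j) (fun l => -lam (Fin.last n) l))
    (N : ℕ) (hN : 0 < N) (e : Fin (n + 1) → Fin r → ℤ)
    (he : ∀ i l, (N : ℚ) * lam i l = e i l)
    (i₁ i₂ : Fin (n + 1)) (h12 : i₁ ≠ i₂) (g : Fin (n + 1) → ℤ) (m : ℕ)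
    (hm : ∑ i ∈ (Finset.univ.erase i₁).erase i₂,
      (Finset.univ.filter fun l => ¬ (N : ℤ) ∣ e i l - g i).card ≤ m)
    (a : ℤ) (ha : IsCoprime a (N : ℤ))
    (hno : ¬ ∃ P₀ : ℕ, ∀ p : ℕ, p.Prime → P₀ < p → (N : ℤ) ∣ a * p + 1 →
      ∀ (𝔪 : Ideal R) [𝔪.IsMaximal], (p : R) ∈ 𝔪 → ¬ PCurvZeroAt α A 𝔪) :
    ∃ C : ℤ, ∀ x : ℤ,
      0 ≤ C + (∑ l, (a * e i₁ l - x) % (N : ℤ) - ∑ l, (a * (-e i₂ l -
        ∑ i ∈ (Finset.univ.erase i₁).erase i₂, g i) - x) % (N : ℤ)) ∧
      C + (∑ l, (a * e i₁ l - x) % (N : ℤ) - ∑ l, (a * (-e i₂ l -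
        ∑ i ∈ (Finset.univ.erase i₁).erase i₂, g i) - x) % (N : ℤ)) ≤ N * m := by
  classical
  have hN' : (0 : ℤ) < N := by exact_mod_cast hN
  set T : Finset (Fin (n + 1)) := (Finset.univ.erase i₁).erase i₂ with hT
  set G : ℤ := ∑ i ∈ T, g i with hG
  have hsplit : ∀ f : Fin (n + 1) → ℤ, ∑ i, f i = f i₁ + (f i₂ + ∑ i ∈ T, f i) := by
    intro f
    rw [← Finset.add_sum_erase Finset.univ f (Finset.mem_univ i₁),
      ← Finset.add_sum_erase (Finset.univ.erase i₁) f
        (Finset.mem_erase.2 ⟨h12.symm, Finset.mem_univ i₂⟩)]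
  have hT1 : i₁ ∉ T := by simp [hT]
  have hT2 : i₂ ∉ T := by simp [hT]
  have hcard : T.card = n - 1 := by
    rw [hT, Finset.card_erase_of_mem (Finset.mem_erase.2 ⟨h12.symm, Finset.mem_univ i₂⟩),
      Finset.card_erase_of_mem (Finset.mem_univ i₁), Finset.card_univ, Fintype.card_fin]
    omega
  have hn : 1 ≤ n := by
    rcases Nat.eq_zero_or_pos n with h | h
    · subst h
      exact absurd (Fin.ext (by omega)) h12
    · exact h
  refine ⟨∑ i ∈ T, ∑ l, (a * (e i l - g i)) % (N : ℤ), fun x => ?_⟩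
  have hi2 : ∀ l, (a * e i₂ l - (1 - x - a * G)) % (N : ℤ) =
      (N - 1) - (a * (-e i₂ l - G) - x) % (N : ℤ) := by
    intro l
    rw [← neg_sub_one_emod hN']
    congr 1
    ring
  have hTs : ∀ (xx : Fin (n + 1) → ℤ), (∀ i ∈ T, xx i = a * g i) →
      ∑ i ∈ T, ∑ l, (a * e i l - xx i) % (N : ℤ) = ∑ i ∈ T, ∑ l, (a * (e i l - g i)) % (N : ℤ) := by
    intro xx hX
    refine Finset.sum_congr rfl fun i hi => Finset.sum_congr rfl fun l _ => ?_
    rw [hX i hi]
    congr 1
    ring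
  constructor
  · let xx : Fin (n + 1) → ℤ := fun i => if i = i₁ then x else if i = i₂ then 1 - x - a * G else
      a * g i
    have hX1 : xx i₁ = x := if_pos rfl
    have hX2 : xx i₂ = 1 - x - a * G := by
      simp only [xx]; rw [if_neg h12.symm]; simp
    have hX3 : ∀ i ∈ T, xx i = a * g i := by
      intro i hi
      simp only [xx]
      have hne1 : i ≠ i₁ := fun h => hT1 (h ▸ hi)
      have hne2 : i ≠ i₂ := fun h => hT2 (h ▸ hi)
      rw [if_neg hne1, if_neg hne2]
    have h1 := sym_lower α hα A lam hlam hinf N hN e he a hno xx (by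
      rw [hsplit, hX1, hX2, Finset.sum_congr rfl hX3, ← Finset.mul_sum]
      ring)
    rw [hsplit, hTs xx hX3, hX1, hX2, Finset.sum_congr rfl fun l _ => hi2 l,
      Finset.sum_sub_distrib, Finset.sum_const, Finset.card_univ, Fintype.card_fin,
      nsmul_eq_mul] at h1
    linarith
  · let xx : Fin (n + 1) → ℤ := fun i => if i = i₁ then x else if i = i₂ then 1 - x - a * G else
      a * g i + 1
    have hX1 : xx i₁ = x := if_pos rfl
    have hX2 : xx i₂ = 1 - x - a * G := by
      simp only [xx]; rw [if_neg h12.symm]; simp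
    have hX3 : ∀ i ∈ T, xx i = a * g i + 1 := by
      intro i hi
      simp only [xx]
      have hne1 : i ≠ i₁ := fun h => hT1 (h ▸ hi)
      have hne2 : i ≠ i₂ := fun h => hT2 (h ▸ hi)
      rw [if_neg hne1, if_neg hne2]
    have h1 := sym_upper α hα A lam hlam hinf N hN e he a hno xx (by
      rw [hsplit, hX1, hX2, Finset.sum_congr rfl hX3, Finset.sum_add_distrib, ← Finset.mul_sum,
        Finset.sum_const, hcard, nsmul_eq_mul, Nat.cast_sub hn]
      push_cast
      ring)
    have h2 : ∀ i ∈ T, ∑ l, (a * e i l - xx i) % (N : ℤ) =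
        ∑ l, (a * (e i l - g i)) % (N : ℤ) + (r * (N - 1) -
          N * ((Finset.univ.filter fun l => ¬ (N : ℤ) ∣ e i l - g i).card : ℤ)) := by
      intro i hi
      have h3 : ∀ l, (a * e i l - xx i) % (N : ℤ) = (a * (e i l - g i)) % (N : ℤ) +
          ((N - 1) - N * (if ¬ (N : ℤ) ∣ e i l - g i then 1 else 0)) := by
        intro l
        have h4 : a * e i l - xx i = a * (e i l - g i) - 1 := by rw [hX3 i hi]; ring
        rw [h4, sub_one_emod hN']
        have h5 : ((N : ℤ) ∣ a * (e i l - g i)) ↔ (N : ℤ) ∣ e i l - g i :=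
          ⟨fun h => ha.symm.dvd_of_dvd_mul_left h, fun h => h.mul_left a⟩
        by_cases h6 : (N : ℤ) ∣ e i l - g i
        · rw [if_pos (h5.2 h6), if_neg (not_not.2 h6)]; ring
        · rw [if_neg (fun h => h6 (h5.1 h)), if_pos h6]; ring
      rw [Finset.sum_congr rfl fun l _ => h3 l, Finset.sum_add_distrib, Finset.sum_sub_distrib,
        Finset.sum_const, Finset.card_univ, Fintype.card_fin, nsmul_eq_mul, ← Finset.mul_sum,
        Finset.card_filter]
      push_cast
      rfl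
    rw [hsplit, hX1, hX2, Finset.sum_congr rfl fun l _ => hi2 l,
      Finset.sum_sub_distrib, Finset.sum_const, Finset.card_univ, Fintype.card_fin,
      nsmul_eq_mul, Finset.sum_congr rfl h2, Finset.sum_add_distrib, Finset.sum_sub_distrib,
      Finset.sum_const, hcard, nsmul_eq_mul, Nat.cast_sub hn, ← Finset.mul_sum] at h1
    have h7 : (∑ i ∈ T, ((Finset.univ.filter fun l => ¬ (N : ℤ) ∣ e i l - g i).card : ℤ)) ≤ m := by
      exact_mod_cast hm
    have h8 := mul_le_mul_of_nonneg_left h7 hN'.le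
    push_cast at h1
    linarith

end

end Pool.Agent.TH571.PCV
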