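import Mathlib

set_option autoImplicit false

/-!
Weights of a parabolic bundle and counting: from the inequalities between the ordered weights to
inequalities between sums of remainders.
-/

namespace Pool.Agent.TH571.PCV

open Finset

/-- An antitone sequence of integers whose values differ by at most one. -/
lemma count_threshold {r : ℕ} (hr : 0 < r) (t : Fin r → ℤ) (hanti : Antitone t)
    (h1 : ∀ l l', t l ≤ t l' + 1) :
    ∃ (q : ℤ) (s : Fin r), ∑ l, t l = r * q + (s : ℕ) ∧ (∀ l, l < s → t l = q + 1) ∧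
      (∀ l, s ≤ l → t l = q) := by
  classical
  let last : Fin r := ⟨r - 1, by omega⟩
  set q : ℤ := t last with hq
  have hlast : ∀ l : Fin r, l ≤ last := fun l => by
    rw [Fin.le_def]; have := l.2; simp only [last]; omega
  have hex : ∃ k : ℕ, ∃ h : k < r, t ⟨k, h⟩ = q := ⟨r - 1, by omega, rfl⟩
  obtain ⟨k₀, ⟨hsr, hst⟩, hmin⟩ : ∃ k₀ : ℕ, (∃ h : k₀ < r, t ⟨k₀, h⟩ = q) ∧
      ∀ k < k₀, ¬ ∃ h : k < r, t ⟨k, h⟩ = q :=
    ⟨Nat.find hex, Nat.find_spec hex, fun k hk => Nat.find_min hex hk⟩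
  have hlow : ∀ l : Fin r, (l : ℕ) < k₀ → t l = q + 1 := by
    intro l hl
    have hne : t l ≠ q := by
      intro h
      exact hmin (l : ℕ) hl ⟨l.2, h⟩
    have h2 : q ≤ t l := hanti (hlast l)
    have h3 := h1 l last
    omega
  have hhigh : ∀ l : Fin r, k₀ ≤ (l : ℕ) → t l = q := by
    intro l hl
    have h2 : q ≤ t l := hanti (hlast l)
    have h3 : t l ≤ t ⟨k₀, hsr⟩ := hanti (by rw [Fin.le_def]; exact hl)
    omega
  refine ⟨q, ⟨k₀, hsr⟩, ?_, fun l hl => hlow l (by exact hl), fun l hl => hhigh l (by exact hl)⟩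
  have h4 : ∀ l : Fin r, t l = q + (if (l : ℕ) < k₀ then 1 else 0) := by
    intro l
    by_cases hl : (l : ℕ) < k₀
    · rw [if_pos hl, hlow l hl]
    · rw [if_neg hl, hhigh l (by omega)]; ring
  rw [Finset.sum_congr rfl fun l _ => h4 l, Finset.sum_add_distrib, Finset.sum_const,
    Finset.card_univ, Fintype.card_fin, nsmul_eq_mul]
  have h5 : ∑ l : Fin r, (if (l : ℕ) < k₀ then (1 : ℤ) else 0) = k₀ := by
    rw [Fin.sum_univ_eq_sum_range (fun i => if i < k₀ then (1 : ℤ) else 0) r]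
    rw [← Finset.sum_filter]
    have h6 : (Finset.range r).filter (fun i => i < k₀) = Finset.range k₀ := by
      ext i
      simp only [Finset.mem_filter, Finset.mem_range]
      omega
    rw [h6]
    simp
  rw [h5]

lemma key_threshold {r : ℕ} (hr : 0 < r) {N : ℕ} (hN : 0 < N) (v : Fin r → ℤ) (hv : Monotone v)
    (hv0 : ∀ l, 0 ≤ v l) (hvN : ∀ l, v l ≤ N) (x : ℤ) :
    ∃ (q : ℤ) (s : Fin r), ∑ l, (-((v l - x) / (N : ℤ))) = r * q + (s : ℕ) ∧ x ≤ q * N + v s ∧
      ∀ (q' : ℤ) (s' : Fin r), r * q' + (s' : ℕ) < r * q + (s : ℕ) → q' * N + v s' < x := by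
  have hN' : (0 : ℤ) < N := by exact_mod_cast hN
  obtain ⟨q, s, h1, h2, h3⟩ := count_threshold hr (fun l => -((v l - x) / (N : ℤ)))
    (fun l l' hl => by
      have : (v l - x) / (N : ℤ) ≤ (v l' - x) / (N : ℤ) :=
        Int.ediv_le_ediv hN' (by have := hv hl; omega)
      simp only; omega)
    (fun l l' => by
      have h4 : (v l' - x) / (N : ℤ) ≤ (v l - x) / (N : ℤ) + 1 := by
        have h5 : (v l - x) / (N : ℤ) + 1 = (v l - x + N) / (N : ℤ) := by
          rw [Int.add_ediv_of_dvd_right (dvd_refl _), Int.ediv_self hN'.ne']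
        rw [h5]
        exact Int.ediv_le_ediv hN' (by have := hv0 l; have := hvN l'; omega)
      omega)
  refine ⟨q, s, h1, ?_, ?_⟩
  · have h4 := h3 s le_rfl
    have h5 : -q = (v s - x) / (N : ℤ) := by omega
    have h6 := Int.mul_ediv_add_emod (v s - x) N
    have h7 := Int.emod_nonneg (v s - x) hN'.ne'
    rw [← h5] at h6
    nlinarith
  · intro q' s' hlt
    have hs := s.2
    have hs' := s'.2
    by_cases hq : q' = q
    · subst hq
      have h4 : s' < s := by rw [Fin.lt_def]; omega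
      have h5 := h2 s' h4
      have h6 : -(q' + 1) = (v s' - x) / (N : ℤ) := by omega
      have h7 := Int.mul_ediv_add_emod (v s' - x) N
      have h8 := Int.emod_lt_of_pos (v s' - x) hN'
      rw [← h6] at h7
      nlinarith
    · have hq2 : q' + 1 ≤ q := by
        by_contra hcon
        have h4 : q + 1 ≤ q' := by omega
        have h5 : (r : ℤ) * (q + 1) ≤ r * q' := by
          apply mul_le_mul_of_nonneg_left h4; positivity
        have h6 : ((s : ℕ) : ℤ) < r := by exact_mod_cast hs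
        have h7 : (0 : ℤ) ≤ ((s' : ℕ) : ℤ) := by positivity
        nlinarith
      have h5 : q ≤ -((v s' - x) / (N : ℤ)) := by
        rcases lt_or_ge s' s with h | h
        · have := h2 s' h; omega
        · have := h3 s' h; omega
      have h7 := Int.mul_ediv_add_emod (v s' - x) N
      have h8 := Int.emod_lt_of_pos (v s' - x) hN'
      have h9 : (N : ℤ) * ((v s' - x) / (N : ℤ)) ≤ N * (-q) := by
        apply mul_le_mul_of_nonneg_left _ hN'.le; omega
      have h10 : (N : ℤ) * (q' + 1) ≤ N * q := by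
        apply mul_le_mul_of_nonneg_left _ hN'.le; omega
      nlinarith

/-- The inequalities between ordered weights imply that the remainders of all shifted weights
satisfy a degree inequality. -/
theorem pos_of_ineq {n r : ℕ} {N : ℕ} (hN : 0 < N) (v : Fin n → Fin r → ℤ)
    (u : Fin r → ℤ) (hv : ∀ j, Monotone (v j)) (hu : Monotone u) (hv0 : ∀ j l, 0 ≤ v j l)
    (hvN : ∀ j l, v j l ≤ N) (hu0 : ∀ l, 0 ≤ u l) (huN : ∀ l, u l ≤ N) (m : ℤ)
    (hm : ∑ j, ∑ l, v j l - ∑ l, u l = m * N)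
    (hineq : ∀ (q : ℤ) (κ : Fin n → Fin r) (s : Fin r),
      m + ∑ j, ((κ j : ℕ) : ℤ) = r * q + (s : ℕ) → ∑ j, v j (κ j) ≤ q * N + u s)
    (x : Fin n → ℤ) :
    ∑ l, (u l - ∑ j, x j) % (N : ℤ) ≤ ∑ j, ∑ l, (v j l - x j) % (N : ℤ) := by
  rcases Nat.eq_zero_or_pos r with rfl | hr
  · simp
  have hN' : (0 : ℤ) < N := by exact_mod_cast hN
  have hr' : (0 : ℤ) < r := by exact_mod_cast hr
  choose qq ss h1 h2 _ using fun j => key_threshold hr hN (v j) (hv j) (hv0 j) (hvN j) (x j)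
  obtain ⟨q', s', k1, k2, k3⟩ := key_threshold hr hN u hu hu0 huN (∑ j, x j)
  set M : ℤ := m + ∑ j, ((ss j : ℕ) : ℤ) with hM
  have hs0 : 0 ≤ M % r := Int.emod_nonneg _ hr'.ne'
  have hs1 : M % r < r := Int.emod_lt_of_pos _ hr'
  let s : Fin r := ⟨(M % r).toNat, by omega⟩
  have hs : ((s : ℕ) : ℤ) = M % r := Int.toNat_of_nonneg hs0
  have hMq : M = r * (M / r) + (s : ℕ) := by rw [hs]; exact (Int.mul_ediv_add_emod M r).symm
  have h3 := hineq (M / r) ss s hMq
  have h4 : ∑ j, x j ≤ (∑ j, qq j) * N + ∑ j, v j (ss j) := by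
    rw [Finset.sum_mul, ← Finset.sum_add_distrib]
    exact Finset.sum_le_sum fun j _ => h2 j
  have h5 : ¬ (r * (M / r + ∑ j, qq j) + (s : ℕ) < r * q' + (s' : ℕ)) := by
    intro hlt
    have h6 := k3 _ _ hlt
    have : (M / r + ∑ j, qq j) * N + u s = (M / r) * N + u s + (∑ j, qq j) * N := by ring
    linarith
  push Not at h5
  have h6 : ∑ l, (-((u l - ∑ j, x j) / (N : ℤ))) ≤
      m + ∑ j, ∑ l, (-((v j l - x j) / (N : ℤ))) := by
    rw [k1, Finset.sum_congr rfl fun j _ => h1 j, Finset.sum_add_distrib, ← Finset.mul_sum]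
    have : m + ((r : ℤ) * ∑ j, qq j + ∑ j, ((ss j : ℕ) : ℤ)) = M + r * ∑ j, qq j := by
      rw [hM]; ring
    rw [this, hMq]
    linarith [h5, mul_add (r : ℤ) (M / r) (∑ j, qq j)]
  have h7 : ∀ y : ℤ, y % (N : ℤ) = y + N * (-(y / (N : ℤ))) := fun y => by
    have := Int.mul_ediv_add_emod y N; linarith
  simp only [h7]
  simp only [Finset.sum_add_distrib, ← Finset.mul_sum, Finset.sum_sub_distrib, Finset.sum_const,
    Finset.card_univ, Fintype.card_fin, nsmul_eq_mul]
  have h8 := mul_le_mul_of_nonneg_left h6 hN'.le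
  rw [mul_add] at h8
  linarith

end Pool.Agent.TH571.PCV
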