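import Mathlib

set_option autoImplicit false

/-!
The quadratic form of the exponents at two points.
-/

namespace Pool.Agent.TH571.PCV

/-- The function `q ↦ (∏ p ∣ n, (-p)) / n ^ 2`, `n` the denominator of `q`, `p` prime. It depends only
on `q` modulo `1` and has the value `1` at integers. -/
def gam (q : ℚ) : ℚ := (∏ p ∈ q.den.primeFactors, (-(p : ℚ))) / (q.den : ℚ) ^ 2

/-- The quadratic form of two families of rational numbers, modulo the integers: the sum of `gam`
over the pairs of elements of the first family, plus the same sum for the second family, minus twice
the sum over the mixed pairs (`x l + y l'` is the difference between `x l` and `-y l'`). -/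
def form {r : ℕ} (x y : Fin r → ℚ) : ℚ :=
  ∑ l, ∑ l', (gam (x l - x l') + gam (y l - y l') - 2 * gam (x l + y l'))

end Pool.Agent.TH571.PCV
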