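import Pool.Agent.TH571.PCV.Block

set_option autoImplicit false
set_option maxHeartbeats 4000000

/-!
The main theorem on systems with few nontrivial exponents outside two points.
-/

namespace Pool.Agent.TH571.PCV

open Finset Pool.Agent.W432.PC Pool.Agent.W280.PC

universe u

section

variable {R : Type u} [CommRing R] [IsDomain R] [CharZero R] {n r : ℕ}

theorem few (α : Fin n → R) (hα : ∀ i j, i ≠ j → IsUnit (α i - α j))
    (A : Fin n → Matrix (Fin r) (Fin r) R) (lam : Fin (n + 1) → Fin r → ℚ)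
    (hlam : ∀ j : Fin n, HasExponents (A j) (lam j.castSucc))
    (hinf : HasExponents (∑ j, A j) (fun l => -lam (Fin.last n) l))
    (i₁ i₂ : Fin (n + 1)) (h12 : i₁ ≠ i₂) (g : Fin (n + 1) → ℚ) (m : ℕ)
    (hm : ∑ i ∈ (Finset.univ.erase i₁).erase i₂,
      (Finset.univ.filter fun l => (lam i l - g i).den ≠ 1).card ≤ m)
    (N : ℕ) (hN : 0 < N) (hNlam : ∀ i l, ∃ z : ℤ, (N : ℚ) * lam i l = z)
    (hNg : ∀ i ∈ (Finset.univ.erase i₁).erase i₂, ∃ z : ℤ, (N : ℚ) * g i = z) :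
    ∃ S : Finset (ZMod N)ˣ, (N.totient : ℚ) * (form (lam i₁)
      (fun l => lam i₂ l + ∑ i ∈ (Finset.univ.erase i₁).erase i₂, g i) - 3 * (m : ℚ) ^ 2) ≤
        3 * ((r : ℚ) ^ 2 - (m : ℚ) ^ 2) * S.card ∧
      ∃ P₀ : ℕ, ∀ p : ℕ, p.Prime → P₀ < p → ∀ v ∈ S, (p : ZMod N) = (v : ZMod N) →
        ∀ (𝔪 : Ideal R) [𝔪.IsMaximal], (p : R) ∈ 𝔪 → ¬ PCurvZeroAt α A 𝔪 := by
  classical
  have hNq : (0 : ℚ) < N := by exact_mod_cast hN
  have hN0 : (N : ℚ) ≠ 0 := hNq.ne'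
  have : NeZero N := ⟨hN.ne'⟩
  choose e he using hNlam
  set T : Finset (Fin (n + 1)) := (Finset.univ.erase i₁).erase i₂ with hT
  set γ : Fin (n + 1) → ℤ := fun i => ⌊(N : ℚ) * g i⌋ with hγ
  have hγg : ∀ i ∈ T, (N : ℚ) * g i = γ i := by
    intro i hi
    obtain ⟨z, hz⟩ := hNg i hi
    simp only [hγ]
    rw [hz, Int.floor_intCast]
  set G : ℤ := ∑ i ∈ T, γ i with hG
  have hGq : (G : ℚ) = N * ∑ i ∈ T, g i := by
    rw [hG, Finset.mul_sum]
    push_cast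
    exact Finset.sum_congr rfl fun i hi => (hγg i hi).symm
  have hm' : ∑ i ∈ T, (Finset.univ.filter fun l => ¬ (N : ℤ) ∣ e i l - γ i).card ≤ m := by
    refine le_trans (Finset.sum_le_sum fun i hi => Finset.card_le_card ?_) hm
    intro l hl
    rw [Finset.mem_filter] at hl ⊢
    refine ⟨hl.1, fun h1 => hl.2 ?_⟩
    obtain ⟨z, hz⟩ : ∃ z : ℤ, (z : ℚ) = lam i l - g i := ⟨_, (Rat.den_eq_one_iff _).1 h1⟩
    refine ⟨z, ?_⟩
    have h2 : ((e i l - γ i : ℤ) : ℚ) = ((N * z : ℤ) : ℚ) := by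
      push_cast
      rw [hz, ← he, ← hγg i hi]
      ring
    exact_mod_cast h2
  -- the index set
  set ε : Fin r ⊕ Fin r → ℤ := Sum.elim (fun _ => 1) (fun _ => -1) with hεdef
  let z : Fin r ⊕ Fin r → ℤ := Sum.elim (fun l => e i₁ l) (fun l => -e i₂ l - G)
  have hε : ∑ i : Fin r ⊕ Fin r, ε i = 0 := by
    simp [hεdef, Fintype.sum_sum_type]
  -- the good classes
  let P : (ZMod N)ˣ → Prop := fun v => ∃ P₀ : ℕ, ∀ p : ℕ, p.Prime → P₀ < p →
    (p : ZMod N) = (v : ZMod N) → ∀ (𝔪 : Ideal R) [𝔪.IsMaximal], (p : R) ∈ 𝔪 →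
      ¬ PCurvZeroAt α A 𝔪
  have hall : ∀ v : (ZMod N)ˣ, ¬ P v → mom N Finset.univ ε z (-v⁻¹) ≤ ((m : ℤ) * N) ^ 2 := by
    intro v hv
    set a : ℤ := (((-v⁻¹ : (ZMod N)ˣ) : ZMod N).val : ℤ) with ha
    have hcop : IsCoprime a (N : ℤ) := by
      rw [ha, Nat.isCoprime_iff_coprime]
      exact ZMod.val_coe_unit_coprime _
    have hau : ((a : ℤ) : ZMod N) = ((-v⁻¹ : (ZMod N)ˣ) : ZMod N) := by
      rw [ha, Int.cast_natCast, ZMod.natCast_zmod_val]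
    obtain ⟨C, hC⟩ := block_bounds α hα A lam hlam hinf N hN e he i₁ i₂ h12 γ m hm' a hcop (by
      rintro ⟨P₀, hP₀⟩
      refine hv ⟨P₀, fun p hp hpP hpv 𝔪 _ hpm => hP₀ p hp hpP ?_ 𝔪 hpm⟩
      rw [← ZMod.intCast_zmod_eq_zero_iff_dvd]
      push_cast
      rw [hau, hpv, ← Units.val_mul, neg_mul, inv_mul_cancel]
      simp)
    refine mom_le N Finset.univ ε z hε (-v⁻¹) a hau C _ fun x => ?_
    have h1 : ∑ i : Fin r ⊕ Fin r, ε i * ((a * z i - x) % (N : ℤ)) =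
        ∑ l, (a * e i₁ l - x) % (N : ℤ) - ∑ l, (a * (-e i₂ l - G) - x) % (N : ℤ) := by
      rw [Fintype.sum_sum_type]
      simp only [hεdef, z, Sum.elim_inl, Sum.elim_inr, one_mul, neg_one_mul,
        Finset.sum_neg_distrib]
      ring
    rw [h1, mul_comm (m : ℤ) (N : ℤ)]
    exact hC x
  set S : Finset (ZMod N)ˣ := Finset.univ.filter fun v => P v with hS
  refine ⟨S, ?_, ?_⟩
  · have h1 : ∑ u : (ZMod N)ˣ, mom N Finset.univ ε z u =
        ∑ v : (ZMod N)ˣ, mom N Finset.univ ε z (-v⁻¹) :=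
      (Equiv.sum_comp ((Equiv.inv (ZMod N)ˣ).trans (Equiv.neg (ZMod N)ˣ))
        (fun u => mom N Finset.univ ε z u)).symm
    have h2 : ∑ v : (ZMod N)ˣ, mom N Finset.univ ε z (-v⁻¹) ≤
        ∑ v : (ZMod N)ˣ, (((m : ℤ) * N) ^ 2 + if v ∈ S then ((r : ℤ) * N) ^ 2 - ((m : ℤ) * N) ^ 2
          else 0) := by
      refine Finset.sum_le_sum fun v _ => ?_
      by_cases hv : v ∈ S
      · rw [if_pos hv]
        have := mom_le_trivial N r z (-v⁻¹)
        linarith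
      · rw [if_neg hv, add_zero]
        exact hall v (fun h => hv (Finset.mem_filter.2 ⟨Finset.mem_univ _, h⟩))
    rw [Finset.sum_add_distrib, Finset.sum_const, Finset.card_univ, ZMod.card_units_eq_totient,
      nsmul_eq_mul, ← Finset.sum_filter, Finset.filter_mem_eq_inter, Finset.univ_inter,
      Finset.sum_const, nsmul_eq_mul, ← h1] at h2
    have h3 := mom_sum N Finset.univ ε z hε
    have h4 : ((∑ u : (ZMod N)ˣ, mom N Finset.univ ε z u : ℤ) : ℚ) ≤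
        (((N.totient : ℤ) * ((m : ℤ) * N) ^ 2 + (S.card : ℤ) * (((r : ℤ) * N) ^ 2 -
          ((m : ℤ) * N) ^ 2) : ℤ) : ℚ) := by exact_mod_cast h2
    have h5 : ∑ i : Fin r ⊕ Fin r, ∑ j : Fin r ⊕ Fin r, (ε i : ℚ) * ε j *
        gam (((z i - z j : ℤ) : ℚ) / N) = form (lam i₁) (fun l => lam i₂ l + ∑ i ∈ T, g i) := by
      have k1 : ∀ l l', (((e i₁ l - e i₁ l' : ℤ) : ℚ) / N) = lam i₁ l - lam i₁ l' := by
        intro l l'
        push_cast
        rw [← he, ← he]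
        field_simp
      have k2 : ∀ l l', ((((-e i₂ l - G) - (-e i₂ l' - G) : ℤ) : ℚ) / N) =
          -(lam i₂ l + ∑ i ∈ T, g i - (lam i₂ l' + ∑ i ∈ T, g i)) := by
        intro l l'
        push_cast
        rw [← he, ← he]
        field_simp
        ring
      have k3 : ∀ l l', (((e i₁ l - (-e i₂ l' - G) : ℤ) : ℚ) / N) =
          lam i₁ l + (lam i₂ l' + ∑ i ∈ T, g i) := by
        intro l l'
        push_cast
        rw [hGq, ← he, ← he]
        field_simp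
        ring
      have k4 : ∀ l l', ((((-e i₂ l - G) - e i₁ l' : ℤ) : ℚ) / N) =
          -(lam i₁ l' + (lam i₂ l + ∑ i ∈ T, g i)) := by
        intro l l'
        push_cast
        rw [hGq, ← he, ← he]
        field_simp
        ring
      unfold form
      rw [Fintype.sum_sum_type]
      simp only [Fintype.sum_sum_type, hεdef, z, Sum.elim_inl, Sum.elim_inr]
      simp only [k1, k2, k3, k4, gam_neg]
      simp only [Finset.sum_add_distrib, Finset.sum_sub_distrib]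
      have k5 : ∑ l, ∑ l', gam (lam i₁ l' + (lam i₂ l + ∑ i ∈ T, g i)) =
          ∑ l, ∑ l', gam (lam i₁ l + (lam i₂ l' + ∑ i ∈ T, g i)) := Finset.sum_comm
      have k6 : ∀ f : Fin r → Fin r → ℚ, ∑ l, ∑ l', ((-1 : ℤ) : ℚ) * ((1 : ℤ) : ℚ) * f l l' =
          -∑ l, ∑ l', f l l' := by
        intro f
        simp [Finset.sum_neg_distrib]
      have k7 : ∀ f : Fin r → Fin r → ℚ, ∑ l, ∑ l', ((1 : ℤ) : ℚ) * ((-1 : ℤ) : ℚ) * f l l' =
          -∑ l, ∑ l', f l l' := by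
        intro f
        simp [Finset.sum_neg_distrib]
      have k8 : ∀ f : Fin r → Fin r → ℚ, ∑ l, ∑ l', ((-1 : ℤ) : ℚ) * ((-1 : ℤ) : ℚ) * f l l' =
          ∑ l, ∑ l', f l l' := by
        intro f
        simp
      have k9 : ∀ f : Fin r → Fin r → ℚ, ∑ l, ∑ l', ((1 : ℤ) : ℚ) * ((1 : ℤ) : ℚ) * f l l' =
          ∑ l, ∑ l', f l l' := by
        intro f
        simp
      rw [k6, k7, k8, k9, k5]
      simp only [← Finset.mul_sum]
      ring
    rw [h5] at h3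
    set Q := form (lam i₁) (fun l => lam i₂ l + ∑ i ∈ T, g i) with hQ
    push_cast at h3 h4
    have h6 : (N : ℚ) ^ 2 * ((N.totient : ℚ) * (Q - 3 * (m : ℚ) ^ 2)) ≤
        (N : ℚ) ^ 2 * (3 * ((r : ℚ) ^ 2 - (m : ℚ) ^ 2) * S.card) := by
      nlinarith [h3, h4]
    exact le_of_mul_le_mul_left h6 (by positivity)
  · have h1 : ∀ v : (ZMod N)ˣ, ∃ P₀ : ℕ, v ∈ S → ∀ p : ℕ, p.Prime → P₀ < p →
        (p : ZMod N) = (v : ZMod N) → ∀ (𝔪 : Ideal R) [𝔪.IsMaximal], (p : R) ∈ 𝔪 →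
        ¬ PCurvZeroAt α A 𝔪 := by
      intro v
      by_cases hv : v ∈ S
      · obtain ⟨P₀, hP⟩ := (Finset.mem_filter.1 hv).2
        exact ⟨P₀, fun _ => hP⟩
      · exact ⟨0, fun h => absurd h hv⟩
    choose f hf using h1
    refine ⟨∑ v : (ZMod N)ˣ, f v, fun p hp hpP v hv hpv 𝔪 _ hpm => ?_⟩
    have h2 : f v ≤ ∑ v : (ZMod N)ˣ, f v :=
      Finset.single_le_sum (f := f) (fun _ _ => Nat.zero_le _) (Finset.mem_univ v)
    exact hf v hv p hp (lt_of_le_of_lt h2 hpP) hpv 𝔪 hpm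

/-- A nonempty set of classes of primes is enough to contradict condition (ii). -/
theorem not_condII_of_class [Algebra.FiniteType ℤ R] (α : Fin n → R)
    (A : Fin n → Matrix (Fin r) (Fin r) R) (N : ℕ) (hN : 0 < N) (v : (ZMod N)ˣ) (P₀ : ℕ)
    (h : ∀ p : ℕ, p.Prime → P₀ < p → (p : ZMod N) = (v : ZMod N) →
        ∀ (𝔪 : Ideal R) [𝔪.IsMaximal], (p : R) ∈ 𝔪 → ¬ PCurvZeroAt α A 𝔪) :
    ¬ CondII α A := by
  have : NeZero N := ⟨hN.ne'⟩
  set a : ℤ := (((-v⁻¹ : (ZMod N)ˣ) : ZMod N).val : ℤ) with ha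
  have hcop : IsCoprime a (N : ℤ) := by
    rw [ha, Nat.isCoprime_iff_coprime]
    exact ZMod.val_coe_unit_coprime _
  have hau : ((a : ℤ) : ZMod N) = ((-v⁻¹ : (ZMod N)ˣ) : ZMod N) := by
    rw [ha, Int.cast_natCast, ZMod.natCast_zmod_val]
  refine not_condII_of α A N hN a hcop ⟨1, one_ne_zero, P₀, fun p hp hpP hap 𝔪 _ hpm _ =>
    h p hp hpP ?_ 𝔪 hpm⟩
  rw [← ZMod.intCast_zmod_eq_zero_iff_dvd] at hap
  push_cast at hap
  rw [hau] at hap
  have h1 : ((-v⁻¹ : (ZMod N)ˣ) : ZMod N) * ((-v : (ZMod N)ˣ) : ZMod N) = 1 := by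
    rw [← Units.val_mul]
    simp
  have h2 : ((-v : (ZMod N)ˣ) : ZMod N) * (((-v⁻¹ : (ZMod N)ˣ) : ZMod N) * p + 1) = 0 := by
    rw [hap, mul_zero]
  have h3 : (p : ZMod N) + ((-v : (ZMod N)ˣ) : ZMod N) = 0 := by
    linear_combination h2 - (p : ZMod N) * h1
  rw [Units.val_neg] at h3
  linear_combination h3

end

end Pool.Agent.TH571.PCV
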