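import Pool.Agent.TH571.PCV.Few

set_option autoImplicit false

/-!
The case of three singular points, and exponents of prime denominator.
-/

namespace Pool.Agent.TH571.PCV

open Finset Pool.Agent.W432.PC Pool.Agent.W280.PC

universe u

section

variable {R : Type u} [CommRing R] [IsDomain R] [CharZero R] {r : ℕ}

lemma erase_perm (σ : Equiv.Perm (Fin 3)) :
    ((Finset.univ : Finset (Fin 3)).erase (σ 0)).erase (σ 1) = {σ 2} := by
  ext i
  obtain ⟨k, rfl⟩ := σ.surjective i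
  simp only [Finset.mem_erase, Finset.mem_univ, and_true, Finset.mem_singleton, ne_eq,
    EmbeddingLike.apply_eq_iff_eq]
  fin_cases k <;> simp

omit [IsDomain R] [CharZero R] in
lemma units3 : ∀ i j : Fin 2, i ≠ j → IsUnit ((![0, 1] : Fin 2 → R) i - ![0, 1] j) := by
  intro i j hij
  fin_cases i <;> fin_cases j
  · exact absurd rfl hij
  · simp
  · simp
  · exact absurd rfl hij

theorem thrice (b c : Matrix (Fin r) (Fin r) R) (lam : Fin 3 → Fin r → ℚ)
    (h0 : HasExponents b (lam 0)) (h1 : HasExponents c (lam 1))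
    (h2 : HasExponents (b + c) (fun l => -lam 2 l))
    (σ : Equiv.Perm (Fin 3)) (g : ℚ) (m : ℕ)
    (hm : (Finset.univ.filter fun l => (lam (σ 2) l - g).den ≠ 1).card ≤ m)
    (N : ℕ) (hN : 0 < N) (hNlam : ∀ i l, ∃ z : ℤ, (N : ℚ) * lam i l = z)
    (hNg : ∃ z : ℤ, (N : ℚ) * g = z) :
    ∃ S : Finset (ZMod N)ˣ, (N.totient : ℚ) *
      (form (lam (σ 0)) (fun l => lam (σ 1) l + g) - 3 * (m : ℚ) ^ 2) ≤
        3 * ((r : ℚ) ^ 2 - (m : ℚ) ^ 2) * S.card ∧
      ∃ P₀ : ℕ, ∀ p : ℕ, p.Prime → P₀ < p → ∀ v ∈ S, (p : ZMod N) = (v : ZMod N) →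
        ∀ (𝔪 : Ideal R) [𝔪.IsMaximal], (p : R) ∈ 𝔪 → ¬ PCurvZeroAt ![0, 1] ![b, c] 𝔪 := by
  have hlam : ∀ j : Fin 2, HasExponents ((![b, c] : Fin 2 → Matrix (Fin r) (Fin r) R) j)
      (lam j.castSucc) := by
    intro j
    fin_cases j
    · exact h0
    · exact h1
  have hinf : HasExponents (∑ j, (![b, c] : Fin 2 → Matrix (Fin r) (Fin r) R) j)
      (fun l => -lam (Fin.last 2) l) := by
    rw [Fin.sum_univ_two]
    exact h2
  have h3 := few ![0, 1] units3 ![b, c] lam hlam hinf (σ 0) (σ 1)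
    (fun h => absurd (σ.injective h) (by decide)) (fun _ => g) m
    (by rw [erase_perm, Finset.sum_singleton]; exact hm) N hN hNlam (fun _ _ => hNg)
  rw [erase_perm, Finset.sum_singleton] at h3
  exact h3

/-- There is a common denominator. -/
lemma exists_common (lam : Fin 3 → Fin r → ℚ) (g : ℚ) :
    ∃ N : ℕ, 0 < N ∧ (∀ i l, ∃ z : ℤ, (N : ℚ) * lam i l = z) ∧ ∃ z : ℤ, (N : ℚ) * g = z := by
  refine ⟨(∏ i, ∏ l, (lam i l).den) * g.den, ?_, ?_, ?_⟩
  · refine Nat.mul_pos (Finset.prod_pos fun i _ => Finset.prod_pos fun l _ => ?_) g.den_pos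
    exact (lam i l).den_pos
  · intro i l
    have h1 : (lam i l).den ∣ (∏ i, ∏ l, (lam i l).den) * g.den :=
      Dvd.dvd.mul_right ((Finset.dvd_prod_of_mem (fun l => (lam i l).den) (Finset.mem_univ l)).trans
        (Finset.dvd_prod_of_mem (fun i => ∏ l, (lam i l).den) (Finset.mem_univ i))) _
    obtain ⟨k, hk⟩ := h1
    refine ⟨k * (lam i l).num, ?_⟩
    rw [hk]
    push_cast
    have := Rat.den_mul_eq_num (lam i l)
    rw [mul_comm ((lam i l).den : ℚ) k, mul_assoc, this]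
  · refine ⟨(∏ i, ∏ l, (lam i l).den : ℕ) * g.num, ?_⟩
    have := Rat.den_mul_eq_num g
    push_cast
    rw [mul_assoc, this]

end

/-- For exponents of prime denominator, distinct modulo the integers at the two points and such that
no mixed sum is an integer, the form is `2 r (1 + 1 / N)`. -/
lemma form_prime {r : ℕ} (N : ℕ) (hN : N.Prime) (x y : Fin r → ℚ)
    (hx : ∀ l, ∃ z : ℤ, (N : ℚ) * x l = z) (hy : ∀ l, ∃ z : ℤ, (N : ℚ) * y l = z)
    (hxx : ∀ l l', l ≠ l' → (x l - x l').den ≠ 1) (hyy : ∀ l l', l ≠ l' → (y l - y l').den ≠ 1)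
    (hxy : ∀ l l', (x l + y l').den ≠ 1) :
    form x y = 2 * r * (1 + 1 / N) := by
  classical
  have hNq : (0 : ℚ) < N := by exact_mod_cast hN.pos
  have hval : ∀ q : ℚ, (∃ z : ℤ, (N : ℚ) * q = z) → q.den ≠ 1 → gam q = -(1 / N) := by
    intro q ⟨z, hz⟩ hq
    have h1 : q = (z : ℚ) / (N : ℤ) := by push_cast; rw [← hz]; field_simp
    have h2 : q.den ∣ N := by
      have := Rat.den_dvd z (N : ℤ)
      rw [Rat.divInt_eq_div, ← h1] at this
      exact_mod_cast this
    have h3 : q.den = N := (hN.eq_one_or_self_of_dvd _ h2).resolve_left hq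
    unfold gam
    rw [h3, hN.primeFactors, Finset.prod_singleton]
    field_simp
  have h0 : gam 0 = 1 := by simpa using gam_int 0
  unfold form
  have hsub : ∀ {u v : ℚ}, (∃ z : ℤ, (N : ℚ) * u = z) → (∃ z : ℤ, (N : ℚ) * v = z) →
      ∃ z : ℤ, (N : ℚ) * (u - v) = z := by
    rintro u v ⟨z, hz⟩ ⟨z', hz'⟩
    exact ⟨z - z', by push_cast; rw [mul_sub, hz, hz']⟩
  have hadd : ∀ {u v : ℚ}, (∃ z : ℤ, (N : ℚ) * u = z) → (∃ z : ℤ, (N : ℚ) * v = z) →
      ∃ z : ℤ, (N : ℚ) * (u + v) = z := by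
    rintro u v ⟨z, hz⟩ ⟨z', hz'⟩
    exact ⟨z + z', by push_cast; rw [mul_add, hz, hz']⟩
  have h1 : ∀ l l', gam (x l - x l') + gam (y l - y l') - 2 * gam (x l + y l') =
      if l = l' then 2 * (1 + 1 / (N : ℚ)) else 0 := by
    intro l l'
    rw [hval _ (hadd (hx l) (hy l')) (hxy l l')]
    by_cases h : l = l'
    · subst h
      rw [if_pos rfl, sub_self, sub_self, h0]
      ring
    · rw [if_neg h, hval _ (hsub (hx l) (hx l')) (hxx l l' h),
        hval _ (hsub (hy l) (hy l')) (hyy l l' h)]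
      ring
  simp only [h1, Finset.sum_ite_eq, Finset.mem_univ, if_true, Finset.sum_const, Finset.card_univ,
    Fintype.card_fin, nsmul_eq_mul]
  ring

end Pool.Agent.TH571.PCV
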