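import Mathlib

set_option autoImplicit false

/-!
The sum of `u (N - u)` over the units `u` modulo `N`.
-/

namespace Pool.Agent.TH571.PCV

open Finset ArithmeticFunction ArithmeticFunction.Moebius ArithmeticFunction.zeta

lemma sum_mu_divisors (m : ℕ) : ∑ e ∈ m.divisors, μ e = if m = 1 then 1 else 0 := by
  rw [← ArithmeticFunction.coe_mul_zeta_apply, ArithmeticFunction.moebius_mul_coe_zeta,
    ArithmeticFunction.one_apply]

lemma sum_coprime (N : ℕ) (hN : 0 < N) (g : ℕ → ℤ) :
    ∑ k ∈ (range N).filter (fun k => N.Coprime k), g k =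
      ∑ e ∈ N.divisors, μ e * ∑ j ∈ range (N / e), g (e * j) := by
  classical
  have h1 : ∀ e ∈ N.divisors, μ e * ∑ j ∈ range (N / e), g (e * j) =
      ∑ k ∈ range N, (if e ∣ k then μ e * g k else 0) := by
    intro e he
    have he' := Nat.dvd_of_mem_divisors he
    have he0 : 0 < e := Nat.pos_of_mem_divisors he
    rw [← Finset.sum_filter, Finset.mul_sum]
    refine Finset.sum_nbij (fun j => e * j) ?_ ?_ ?_ ?_
    · intro j hj
      simp only [Finset.mem_filter, Finset.mem_range] at hj ⊢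
      refine ⟨?_, Dvd.intro j rfl⟩
      calc e * j < e * (N / e) := Nat.mul_lt_mul_of_pos_left hj he0
        _ = N := Nat.mul_div_cancel' he'
    · intro j _ j' _ h
      exact Nat.eq_of_mul_eq_mul_left he0 h
    · intro k hk
      rw [Finset.mem_coe, Finset.mem_filter, Finset.mem_range] at hk
      obtain ⟨j, rfl⟩ := hk.2
      refine ⟨j, ?_, rfl⟩
      simp only [Finset.coe_range, Set.mem_Iio]
      exact (Nat.lt_div_iff_mul_lt' he' j).2 hk.1
    · intro j _; rfl
  rw [Finset.sum_congr rfl h1, Finset.sum_comm, Finset.sum_filter]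
  refine Finset.sum_congr rfl fun k _ => ?_
  rw [← Finset.sum_filter, ← Finset.sum_mul]
  have h2 : N.divisors.filter (fun e => e ∣ k) = (N.gcd k).divisors := by
    ext e
    simp only [Finset.mem_filter, Nat.mem_divisors]
    constructor
    · rintro ⟨⟨h1, _⟩, h2⟩
      exact ⟨Nat.dvd_gcd h1 h2, (Nat.gcd_pos_of_pos_left _ hN).ne'⟩
    · rintro ⟨h1, _⟩
      exact ⟨⟨h1.trans (Nat.gcd_dvd_left _ _), hN.ne'⟩, h1.trans (Nat.gcd_dvd_right _ _)⟩
  rw [h2, sum_mu_divisors]
  by_cases hc : N.Coprime k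
  · rw [if_pos hc, if_pos hc, one_mul]
  · rw [if_neg hc, if_neg hc, zero_mul]

lemma sum_quad (M K : ℕ) : 6 * ∑ j ∈ range K, (j : ℤ) * (M - j) =
    3 * M * (K * (K - 1)) - K * (K - 1) * (2 * K - 1) := by
  induction K with
  | zero => simp
  | succ K ih =>
    rw [Finset.sum_range_succ, mul_add, ih]
    push_cast
    ring

lemma sum_mu_id (N : ℕ) (hN : N ≠ 0) :
    ∑ e ∈ N.divisors, μ e * (e : ℤ) = ∏ p ∈ N.primeFactors, (1 - (p : ℤ)) := by
  set F : ArithmeticFunction ℤ :=
    ((μ : ArithmeticFunction ℤ).pmul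
      ((ArithmeticFunction.id : ArithmeticFunction ℕ) : ArithmeticFunction ℤ)) *
      ((ζ : ArithmeticFunction ℕ) : ArithmeticFunction ℤ) with hF
  have hmul : F.IsMultiplicative :=
    (isMultiplicative_moebius.pmul isMultiplicative_id.natCast).mul isMultiplicative_zeta.natCast
  have hval : ∀ n : ℕ, F n = ∑ e ∈ n.divisors, μ e * (e : ℤ) := by
    intro n
    rw [hF, ArithmeticFunction.coe_mul_zeta_apply]
    refine Finset.sum_congr rfl fun e _ => ?_
    simp [ArithmeticFunction.pmul_apply, ArithmeticFunction.natCoe_apply]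
  have hpp : ∀ p k : ℕ, p.Prime → k ≠ 0 → F (p ^ k) = 1 - (p : ℤ) := by
    intro p k hp hk
    rw [hval, Nat.sum_divisors_prime_pow hp]
    obtain ⟨k, rfl⟩ := Nat.exists_eq_succ_of_ne_zero hk
    clear hk
    induction k with
    | zero =>
      rw [Finset.sum_range_succ, Finset.sum_range_one]
      simp [ArithmeticFunction.moebius_apply_prime hp]
      ring
    | succ k ih =>
      rw [Finset.sum_range_succ, ih, moebius_apply_prime_pow hp (by omega),
        if_neg (by omega), zero_mul, add_zero]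
  rw [← hval, hmul.multiplicative_factorization F hN, Finsupp.prod, Nat.support_factorization]
  refine Finset.prod_congr rfl fun p hp => ?_
  have hpp' := Nat.prime_of_mem_primeFactors hp
  refine hpp p _ hpp' ?_
  have h3 := hpp'.factorization_pos_of_dvd hN (Nat.dvd_of_mem_primeFactors hp)
  omega

/-- The sum of `u (N - u)` over the units. -/
lemma six_sum (N : ℕ) (hN : 0 < N) :
    6 * ∑ k ∈ (range N).filter (fun k => N.Coprime k), (k : ℤ) * (N - k) =
      N.totient * (N ^ 2 - ∏ p ∈ N.primeFactors, (-(p : ℤ))) := by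
  have hphi : (N.totient : ℤ) = ∑ e ∈ N.divisors, μ e * (N / e : ℕ) := by
    have h1 := sum_coprime N hN (fun _ => 1)
    simp only [Finset.sum_const, nsmul_eq_mul, mul_one, Finset.card_range] at h1
    rw [← h1]
    rfl
  rw [sum_coprime N hN (fun k => (k : ℤ) * (N - k)), Finset.mul_sum]
  have h1 : ∀ e ∈ N.divisors, 6 * (μ e * ∑ j ∈ range (N / e), ((e * j : ℕ) : ℤ) *
      (N - (e * j : ℕ))) = N ^ 2 * (μ e * (N / e : ℕ)) - N * (μ e * e) := by
    intro e he
    have he' := Nat.dvd_of_mem_divisors he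
    obtain ⟨M, rfl⟩ := he'
    have he0 : 0 < e := Nat.pos_of_ne_zero (fun h => by rw [h, zero_mul] at hN; omega)
    rw [Nat.mul_div_cancel_left M he0]
    have h2 : ∑ j ∈ range M, ((e * j : ℕ) : ℤ) * (((e * M : ℕ) : ℤ) - (e * j : ℕ)) =
        e ^ 2 * ∑ j ∈ range M, (j : ℤ) * (M - j) := by
      rw [Finset.mul_sum]
      refine Finset.sum_congr rfl fun j _ => ?_
      push_cast; ring
    rw [h2]
    have h3 := sum_quad M M
    push_cast
    linear_combination (μ e * (e : ℤ) ^ 2) * h3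
  rw [Finset.sum_congr rfl h1, Finset.sum_sub_distrib, ← Finset.mul_sum, ← Finset.mul_sum, ← hphi,
    sum_mu_id N hN.ne']
  have h4 := Nat.totient_mul_prod_primeFactors N
  have h5 : (N.totient : ℤ) * ∏ p ∈ N.primeFactors, (p : ℤ) =
      N * ∏ p ∈ N.primeFactors, ((p : ℤ) - 1) := by
    have h6 := congrArg (fun x : ℕ => (x : ℤ)) h4
    simp only [Nat.cast_mul, Nat.cast_prod] at h6
    rw [h6]
    congr 1
    refine Finset.prod_congr rfl fun p hp => ?_
    have := (Nat.prime_of_mem_primeFactors hp).one_lt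
    omega
  have h7 : ∏ p ∈ N.primeFactors, (1 - (p : ℤ)) =
      (∏ _p ∈ N.primeFactors, (-1 : ℤ)) * ∏ p ∈ N.primeFactors, ((p : ℤ) - 1) := by
    rw [← Finset.prod_mul_distrib]
    exact Finset.prod_congr rfl fun p _ => by ring
  have h8 : ∏ p ∈ N.primeFactors, (-(p : ℤ)) =
      (∏ _p ∈ N.primeFactors, (-1 : ℤ)) * ∏ p ∈ N.primeFactors, (p : ℤ) := by
    rw [← Finset.prod_mul_distrib]
    exact Finset.prod_congr rfl fun p _ => by ring
  rw [h7, h8]
  linear_combination (∏ _p ∈ N.primeFactors, (-1 : ℤ)) * h5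

end Pool.Agent.TH571.PCV
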