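import Pool.Agent.TH571.PCV.Units
import Pool.Agent.TH571.PCV.Defs

set_option autoImplicit false

/-!
The sum of the quadratic function over the multiples by units of a residue.
-/

namespace Pool.Agent.TH571.PCV

open Finset

lemma gam_add_int (q : ℚ) (z : ℤ) : gam (q + z) = gam q := by
  unfold gam
  rw [Rat.add_intCast_den]

lemma gam_neg (q : ℚ) : gam (-q) = gam q := by
  unfold gam
  rw [Rat.neg_den]

lemma gam_int (z : ℤ) : gam (z : ℚ) = 1 := by
  unfold gam
  simp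

lemma sum_fiber {G H : Type*} [Group G] [Fintype G] [Group H] [Fintype H] (f : G →* H)
    (hf : Function.Surjective f) (g : H → ℤ) :
    (Fintype.card H : ℤ) * ∑ u, g (f u) = (Fintype.card G : ℤ) * ∑ v, g v := by
  classical
  set c : ℕ := (Finset.univ.filter (fun u : G => f u = 1)).card with hc
  have h1 : ∀ v : H, (Finset.univ.filter (fun u : G => f u = v)).card = c := fun v =>
    MonoidHom.card_fiber_eq_of_mem_range f (hf v) (hf 1)
  have h2 : ∀ g : H → ℤ, ∑ u, g (f u) = c * ∑ v, g v := by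
    intro g
    rw [← Finset.sum_fiberwise Finset.univ f, Finset.mul_sum]
    refine Finset.sum_congr rfl fun v _ => ?_
    rw [← h1 v, ← nsmul_eq_mul, ← Finset.sum_const]
    refine Finset.sum_congr rfl fun u hu => ?_
    rw [(Finset.mem_filter.1 hu).2]
  have h3 := h2 (fun _ => 1)
  simp only [Finset.sum_const, Finset.card_univ, nsmul_eq_mul, mul_one] at h3
  rw [h2 g, h3]
  ring

lemma sum_units_val (n : ℕ) [NeZero n] (g : ℕ → ℤ) :
    ∑ v : (ZMod n)ˣ, g (v : ZMod n).val = ∑ k ∈ (range n).filter (fun k => n.Coprime k), g k := by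
  classical
  refine Finset.sum_nbij (fun v : (ZMod n)ˣ => (v : ZMod n).val) ?_ ?_ ?_ ?_
  · intro v _
    rw [Finset.mem_filter, Finset.mem_range]
    exact ⟨ZMod.val_lt _, (ZMod.val_coe_unit_coprime v).symm⟩
  · intro v _ v' _ h
    exact Units.ext (ZMod.val_injective n h)
  · intro k hk
    rw [Finset.mem_coe, Finset.mem_filter, Finset.mem_range] at hk
    refine ⟨ZMod.unitOfCoprime k hk.2.symm, Finset.mem_coe.2 (Finset.mem_univ _), ?_⟩
    simp only [ZMod.coe_unitOfCoprime]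
    rw [ZMod.val_natCast, Nat.mod_eq_of_lt hk.1]
  · intro v _; rfl

theorem unit_sum (N : ℕ) [NeZero N] (δ : ZMod N) :
    6 * ((∑ u : (ZMod N)ˣ, ((((u : ZMod N) * δ).val : ℤ) * (N - ((u : ZMod N) * δ).val)) : ℤ) : ℚ) =
      (N.totient : ℚ) * (N : ℚ) ^ 2 * (1 - gam ((δ.val : ℚ) / N)) := by
  classical
  have hN : 0 < N := Nat.pos_of_ne_zero (NeZero.ne N)
  set k := δ.val with hk
  set d := Nat.gcd k N with hd
  have hd0 : 0 < d := Nat.gcd_pos_of_pos_right _ hN
  obtain ⟨n, hn⟩ : d ∣ N := Nat.gcd_dvd_right _ _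
  obtain ⟨k', hk'⟩ : d ∣ k := Nat.gcd_dvd_left _ _
  have hn0 : 0 < n := by
    rcases Nat.eq_zero_or_pos n with h | h
    · rw [h, mul_zero] at hn; omega
    · exact h
  have : NeZero n := ⟨hn0.ne'⟩
  have hcop : Nat.Coprime k' n := by
    have h1 : Nat.gcd (d * k') (d * n) = d := by rw [← hk', ← hn]
    rw [Nat.gcd_mul_left] at h1
    exact Nat.eq_of_mul_eq_mul_left hd0 (by rw [h1, mul_one])
  have hnN : n ∣ N := ⟨d, by rw [hn, mul_comm]⟩
  let κ : (ZMod n)ˣ := ZMod.unitOfCoprime k' hcop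
  -- the residue of the multiple
  have h1 : ∀ u : (ZMod N)ˣ, ((u : ZMod N) * δ).val =
      d * (((ZMod.unitsMap hnN u) * κ : (ZMod n)ˣ) : ZMod n).val := by
    intro u
    have h2 : ((u : ZMod N) * δ).val = ((u : ZMod N).val * k) % N := by rw [ZMod.val_mul]
    have h3 : (((ZMod.unitsMap hnN u) * κ : (ZMod n)ˣ) : ZMod n) =
        (((u : ZMod N).val * k' : ℕ) : ZMod n) := by
      rw [Units.val_mul, ZMod.coe_unitOfCoprime, ZMod.unitsMap_val, Nat.cast_mul,
        ZMod.natCast_val]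
    rw [h3, ZMod.val_natCast, h2, hk', mul_left_comm]
    generalize (u : ZMod N).val * k' = t
    rw [hn, Nat.mul_mod_mul_left]
  -- the sum over the smaller group
  have h4 : ∑ u : (ZMod N)ˣ, ((((u : ZMod N) * δ).val : ℤ) * (N - ((u : ZMod N) * δ).val)) =
      ∑ u : (ZMod N)ˣ, (fun v : (ZMod n)ˣ => (d : ℤ) ^ 2 *
        ((((v * κ : (ZMod n)ˣ) : ZMod n).val : ℤ) * (n - ((v * κ : (ZMod n)ˣ) : ZMod n).val)))
        (ZMod.unitsMap hnN u) := by
    refine Finset.sum_congr rfl fun u _ => ?_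
    have hNc : (N : ℤ) = d * n := by exact_mod_cast hn
    simp only [h1 u, hNc]
    push_cast
    ring
  have h5 := sum_fiber (ZMod.unitsMap hnN) (ZMod.unitsMap_surjective hnN)
    (fun v : (ZMod n)ˣ => (d : ℤ) ^ 2 *
        ((((v * κ : (ZMod n)ˣ) : ZMod n).val : ℤ) * (n - ((v * κ : (ZMod n)ˣ) : ZMod n).val)))
  rw [← h4] at h5
  have h6 : ∑ v : (ZMod n)ˣ, (d : ℤ) ^ 2 *
        ((((v * κ : (ZMod n)ˣ) : ZMod n).val : ℤ) * (n - ((v * κ : (ZMod n)ˣ) : ZMod n).val)) =
      (d : ℤ) ^ 2 * ∑ k ∈ (range n).filter (fun k => n.Coprime k), (k : ℤ) * (n - k) := by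
    rw [← Finset.mul_sum]
    congr 1
    have h12 := Equiv.sum_comp (Equiv.mulRight κ) (fun v : (ZMod n)ˣ => (((v : ZMod n).val : ℤ) *
      (n - (v : ZMod n).val)))
    simp only [Equiv.coe_mulRight] at h12
    rw [h12]
    exact sum_units_val n (fun k => (k : ℤ) * (n - k))
  rw [h6, ZMod.card_units_eq_totient, ZMod.card_units_eq_totient] at h5
  have h7 := six_sum n hn0
  set S := ∑ u : (ZMod N)ˣ, ((((u : ZMod N) * δ).val : ℤ) * (N - ((u : ZMod N) * δ).val)) with hS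
  have h8 : (n.totient : ℤ) * (6 * S) = (N.totient : ℤ) * ((d : ℤ) ^ 2 * (n.totient *
      (n ^ 2 - ∏ p ∈ n.primeFactors, (-(p : ℤ))))) := by
    rw [← h7]
    linear_combination 6 * h5
  have hphi : (n.totient : ℤ) ≠ 0 := by
    have := Nat.totient_pos.2 hn0
    omega
  have h9 : 6 * S = (N.totient : ℤ) * ((d : ℤ) ^ 2 *
      (n ^ 2 - ∏ p ∈ n.primeFactors, (-(p : ℤ)))) := by
    apply mul_left_cancel₀ hphi
    rw [h8]; ring
  -- the denominator
  have hden : ((k : ℚ) / N).den = n := by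
    have hdq : (d : ℚ) ≠ 0 := by exact_mod_cast hd0.ne'
    have h10 : (k : ℚ) / N = ((k' : ℤ) : ℚ) / ((n : ℤ) : ℚ) := by
      rw [hk', hn]; push_cast
      rw [mul_div_mul_left _ _ hdq]
    rw [h10]
    have h13 := Rat.den_div_eq_of_coprime (a := (k' : ℤ)) (b := (n : ℤ)) (by exact_mod_cast hn0)
      (by simpa using hcop)
    exact Int.natCast_inj.1 h13
  have h11 : 6 * (S : ℚ) = (N.totient : ℚ) * ((d : ℚ) ^ 2 *
      ((n : ℚ) ^ 2 - ∏ p ∈ n.primeFactors, (-(p : ℚ)))) := by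
    have := congrArg (fun x : ℤ => (x : ℚ)) h9
    push_cast at this
    exact this
  rw [h11]
  unfold gam
  rw [hden]
  have hNq : (N : ℚ) = d * n := by exact_mod_cast hn
  have hnq : (n : ℚ) ≠ 0 := by exact_mod_cast hn0.ne'
  rw [hNq]
  field_simp

end Pool.Agent.TH571.PCV
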