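import Pool.Agent.W280.PC.Link
import Pool.Agent.TH571.PCV.Count

set_option autoImplicit false
set_option maxHeartbeats 4000000

/-!
Vanishing `p`-curvature implies inequalities between sums of remainders of the exponents.
-/

namespace Pool.Agent.TH571.PCV

open Finset Pool.Agent.W432.PC Pool.Agent.W280.PC Polynomial

universe u

section dual

variable {K : Type*} [CommRing K] {r : ℕ}

lemma charpoly_neg' (M : Matrix (Fin r) (Fin r) K) :
    M.charpoly.comp (-X) = (-1) ^ r * (-M).charpoly := by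
  have h1 : M.charpoly.comp (-X) = (Polynomial.compRingHom (-X : K[X])) M.charpoly := rfl
  rw [h1, Matrix.charpoly, RingHom.map_det, Matrix.charpoly]
  have h2 : (Polynomial.compRingHom (-X : K[X])).mapMatrix (Matrix.charmatrix M) =
      -(Matrix.charmatrix (-M)) := by
    ext1 i j
    rw [RingHom.mapMatrix_apply, Matrix.map_apply, Matrix.neg_apply]
    by_cases hij : i = j
    · subst hij
      simp [Matrix.charmatrix_apply_eq]
      ring
    · simp [Matrix.charmatrix_apply_ne _ _ _ hij]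
  rw [h2, Matrix.det_neg, Fintype.card_fin]

lemma charpoly_neg_of_prod (M : Matrix (Fin r) (Fin r) K) (u : Fin r → K)
    (h : M.charpoly = ∏ l, (X - C (u l))) : (-M).charpoly = ∏ l, (X - C (-u l)) := by
  have h2 := charpoly_neg' M
  rw [h] at h2
  have h4 : (-1 : K[X]) ^ r * (-1) ^ r = 1 := by
    rw [← mul_pow, neg_one_mul, neg_neg, one_pow]
  have h5 : (-M).charpoly = (-1) ^ r * (∏ l, (X - C (u l))).comp (-X) := by
    rw [h2, ← mul_assoc, h4, one_mul]
  rw [h5, Polynomial.prod_comp]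
  have h6 : (-1 : K[X]) ^ r = ∏ _l : Fin r, (-1 : K[X]) := by simp
  rw [h6, ← Finset.prod_mul_distrib]
  refine Finset.prod_congr rfl fun l _ => ?_
  simp
  ring

end dual

section

variable {R : Type u} [CommRing R] [IsDomain R] [CharZero R] {n r : ℕ}

omit [CharZero R] in
lemma hasExponents_dual {A : Matrix (Fin r) (Fin r) R} {lam : Fin r → ℚ} (h : HasExponents A lam) :
    HasExponents (-A.transpose) (fun l => -lam l) := by
  unfold HasExponents at *
  have h1 : (-A.transpose).charpoly = (-A).charpoly := by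
    rw [← Matrix.transpose_neg, Matrix.charpoly_transpose]
  rw [h1]
  rw [← Matrix.charpoly_map] at h ⊢
  have h7 : (-A).map (algebraMap R (FractionRing R)) =
      -A.map (algebraMap R (FractionRing R)) := by
    ext i j
    rw [Matrix.map_apply, Matrix.neg_apply, Matrix.neg_apply, Matrix.map_apply, map_neg]
  rw [h7, charpoly_neg_of_prod _ _ h]
  refine Finset.prod_congr rfl fun l _ => ?_
  rw [Rat.cast_neg]

lemma trace_eq {A : Fin n → Matrix (Fin r) (Fin r) R} {lam : Fin n → Fin r → ℚ} {phi : Fin r → ℚ}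
    (hlam : ∀ j, HasExponents (A j) (lam j)) (hphi : HasExponents (∑ j, A j) phi) :
    ∑ j, ∑ l, lam j l = ∑ l, phi l := by
  have := charZero_fraction (R := R)
  have h1 := hphi.trace
  rw [Matrix.trace_sum, map_sum] at h1
  rw [Finset.sum_congr rfl fun j _ => (hlam j).trace] at h1
  have h2 : ((∑ j, ∑ l, lam j l : ℚ) : FractionRing R) = ((∑ l, phi l : ℚ) : FractionRing R) := by
    rw [← h1]; push_cast; rfl
  exact_mod_cast h2

/-- If the `p`-curvature does not vanish identically for the class `a`, the remainders satisfy the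
degree inequality, for all shifts. -/
theorem pos_of_not (α : Fin n → R) (hα : ∀ i j, i ≠ j → IsUnit (α i - α j))
    (A A' : Fin n → Matrix (Fin r) (Fin r) R)
    (hA' : A' = A ∨ A' = fun j => -(A j).transpose)
    (lam : Fin n → Fin r → ℚ) (phi : Fin r → ℚ)
    (hlam : ∀ j, HasExponents (A' j) (lam j)) (hphi : HasExponents (∑ j, A' j) phi)
    (N : ℕ) (hN : 0 < N) (e : Fin n → Fin r → ℤ) (e' : Fin r → ℤ)
    (he : ∀ j l, (N : ℚ) * lam j l = e j l) (he' : ∀ l, (N : ℚ) * phi l = e' l)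
    (a : ℤ)
    (hno : ¬ ∃ P₀ : ℕ, ∀ p : ℕ, p.Prime → P₀ < p → (N : ℤ) ∣ a * p + 1 →
      ∀ (𝔪 : Ideal R) [𝔪.IsMaximal], (p : R) ∈ 𝔪 → ¬ PCurvZeroAt α A 𝔪) (x : Fin n → ℤ) :
    ∑ l, (a * e' l - ∑ j, x j) % (N : ℤ) ≤ ∑ j, ∑ l, (a * e j l - x j) % (N : ℤ) := by
  have hN0 : (0 : ℤ) < N := by exact_mod_cast hN
  have hNq : (0 : ℚ) < N := by exact_mod_cast hN
  choose σ hσ using fun j => exists_sorted a (lam j)
  obtain ⟨τ, hτ⟩ := exists_sorted a phi
  have hmono : ∀ {x y : ℚ} {u v : ℤ}, (N : ℚ) * x = u → (N : ℚ) * y = v → lexLE a x y →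
      wI N a u ≤ wI N a v := by
    intro x y u v hx hy hxy
    have h1 : wt a x ≤ wt a y := by
      rcases hxy with h | h
      · exact h.le
      · exact h.1.le
    have h2 := mul_le_mul_of_nonneg_left h1 hNq.le
    rw [wt_wI hN hx, wt_wI hN hy] at h2
    exact_mod_cast h2
  -- the degree
  have htr : ∑ j, ∑ l, e j l = ∑ l, e' l := by
    have h1 := trace_eq hlam hphi
    have h2 : (N : ℚ) * ∑ j, ∑ l, lam j l = (N : ℚ) * ∑ l, phi l := by rw [h1]
    rw [Finset.mul_sum, Finset.mul_sum] at h2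
    simp only [Finset.mul_sum, he, he'] at h2
    exact_mod_cast h2
  have hdvd : (N : ℤ) ∣ ∑ j, ∑ l, wI N a (e j l) - ∑ l, wI N a (e' l) := by
    have h1 : ∑ j, ∑ l, wI N a (e j l) - ∑ l, wI N a (e' l) =
        ∑ j, ∑ l, (wI N a (e j l) - a * e j l) - ∑ l, (wI N a (e' l) - a * e' l) := by
      simp only [Finset.sum_sub_distrib, ← Finset.mul_sum, htr]
      ring
    rw [h1]
    exact dvd_sub (Finset.dvd_sum fun j _ => Finset.dvd_sum fun l _ => wI_mod a _)
      (Finset.dvd_sum fun l _ => wI_mod a _)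
  obtain ⟨m, hm⟩ := hdvd
  rw [mul_comm] at hm
  have hperm : ∀ j, ∑ l, wI N a (e j (σ j l)) = ∑ l, wI N a (e j l) := fun j =>
    Equiv.sum_comp (σ j) (fun l => wI N a (e j l))
  have hperm' : ∑ l, wI N a (e' (τ l)) = ∑ l, wI N a (e' l) :=
    Equiv.sum_comp τ (fun l => wI N a (e' l))
  have hpos := pos_of_ineq hN (fun j l => wI N a (e j (σ j l))) (fun l => wI N a (e' (τ l)))
    (fun j l l' h => hmono (he j _) (he j _) (hσ j l l' h))
    (fun l l' h => hmono (he' _) (he' _) (hτ l l' h))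
    (fun j l => wI_nonneg hN a _) (fun j l => wI_le hN a _) (fun l => wI_nonneg hN a _)
    (fun l => wI_le hN a _) m (by simp only [hperm, hperm']; exact hm) ?_ x
  · have hmod : ∀ y z : ℤ, (wI N a y - z) % (N : ℤ) = (a * y - z) % (N : ℤ) := by
      intro y z
      refine Int.ModEq.symm (Int.modEq_iff_dvd.2 ?_)
      have h1 := wI_mod (D := N) a y
      have h2 : wI N a y - z - (a * y - z) = wI N a y - a * y := by ring
      rw [h2]
      exact h1
    simp only [hmod] at hpos
    have h1 : ∑ l, (a * e' (τ l) - ∑ j, x j) % (N : ℤ) = ∑ l, (a * e' l - ∑ j, x j) % (N : ℤ) :=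
      Equiv.sum_comp τ (fun l => (a * e' l - ∑ j, x j) % (N : ℤ))
    have h2 : ∀ j, ∑ l, (a * e j (σ j l) - x j) % (N : ℤ) = ∑ l, (a * e j l - x j) % (N : ℤ) :=
      fun j => Equiv.sum_comp (σ j) (fun l => (a * e j l - x j) % (N : ℤ))
    rw [h1, Finset.sum_congr rfl fun j _ => h2 j] at hpos
    exact hpos
  · intro q κ s hq
    by_contra hcon
    push Not at hcon
    apply hno
    have hw : ∀ j l, wt a (lam j l) = (wI N a (e j l) : ℚ) / N := fun j l => by
      rw [← wt_wI hN (he j l)]; field_simp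
    have hw' : ∀ l, wt a (phi l) = (wI N a (e' l) : ℚ) / N := fun l => by
      rw [← wt_wI hN (he' l)]; field_simp
    have hq' : ∑ j, ∑ l, wt a (lam j (σ j l)) - ∑ l, wt a (phi (τ l)) + ∑ j, ((κ j : ℕ) : ℚ) =
        q * r + (s : ℕ) := by
      have h1 : ∀ j, ∑ l, wt a (lam j (σ j l)) = ∑ l, wt a (lam j l) := fun j =>
        Equiv.sum_comp (σ j) (fun l => wt a (lam j l))
      have h2 : ∑ l, wt a (phi (τ l)) = ∑ l, wt a (phi l) :=
        Equiv.sum_comp τ (fun l => wt a (phi l))
      rw [Finset.sum_congr rfl (fun j _ => h1 j), h2]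
      simp only [hw, hw']
      have h3 := congrArg (fun x : ℤ => (x : ℚ)) hm
      have h4 := congrArg (fun x : ℤ => (x : ℚ)) hq
      push_cast at h3 h4
      simp only [← Finset.sum_div]
      rw [← sub_div, h3]
      have h5 : (m : ℚ) * N / N = m := by field_simp
      rw [h5]
      linarith
    have hlt : q + wt a (phi (τ s)) < ∑ j, wt a (lam j (σ j (κ j))) := by
      simp only [hw, hw']
      rw [← Finset.sum_div, lt_div_iff₀ hNq]
      have h3 : ((q * N + wI N a (e' (τ s)) : ℤ) : ℚ) <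
          ((∑ j, wI N a (e j (σ j (κ j))) : ℤ) : ℚ) := by
        exact_mod_cast hcon
      push_cast at h3
      calc ((q : ℚ) + (wI N a (e' (τ s)) : ℚ) / N) * N = q * N + wI N a (e' (τ s)) := by
            field_simp
        _ < _ := h3
    obtain ⟨g, -, hg1, P₀, hP⟩ := main α hα A A' hA' (fun j l => lam j (σ j l))
      (fun l => phi (τ l)) (fun j => hasExponents_perm (hlam j) (σ j))
      (hasExponents_perm hphi τ) N hN
      (fun j l => ⟨_, he j _⟩) (fun l => ⟨_, he' _⟩) a hσ hτ κ s q hq' hlt.le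
      (fun heq => absurd heq hlt.ne)
    have hg : g = 1 := hg1 hlt
    refine ⟨P₀, fun p hp hpP hap 𝔪 h𝔪 hpm => hP p hp hpP hap 𝔪 hpm ?_⟩
    rw [hg]
    exact fun h1 => h𝔪.ne_top ((Ideal.eq_top_iff_one _).2 h1)

end

end Pool.Agent.TH571.PCV
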